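import Pool.Agent.Helper1x.EG.Count

/-!
# The lower bound for gauge equivariant circuits
-/

set_option autoImplicit false

namespace Pool.Agent.Helper1x.EG

open Finset Pool.Agent.HS38 Pool.Agent.HS38.GT
open Pool.Agent.Helper1x.EC (Circuit Earlier ju ju_injective)

section

variable {F V A : Type} [Field F] [Fintype V] [DecidableEq V] [Fintype A] [DecidableEq A]

omit [Fintype A] [DecidableEq A] in
theorem scope_restr (K : Finset V) (x : V → A) : scope (restr K x) = K := by
  ext i
  unfold scope restr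
  rw [mem_filter]
  by_cases h : i ∈ K
  · simp [h]
  · simp [h]

omit [Fintype A] [DecidableEq A] in
theorem restr_injective (x : V → A) : Function.Injective fun K : Finset V => restr K x := by
  intro K K' h
  have h1 : scope (restr K x) = scope (restr K' x) := congrArg scope h
  rwa [scope_restr, scope_restr] at h1

/-- the gauge substitution as a unit -/
noncomputable def gu (t : Finset V → V → A → Fˣ) (β : V → Option A) : Fˣ := ∏ i, (β i).elim 1 (t (scope β) i)

omit [Fintype A] [DecidableEq A] in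
theorem gu_restr (t : Finset V → V → A → Fˣ) (K : Finset V) (x : V → A) :
    gu t (restr K x) = ∏ i ∈ K, t K i (x i) := by
  unfold gu
  rw [scope_restr, ← Finset.prod_subset (Finset.subset_univ K)]
  · refine Finset.prod_congr rfl fun i hi => ?_
    rw [restr, if_pos hi]
    rfl
  · intro i _ hi
    rw [restr, if_neg hi]
    rfl

theorem Generic.map {L : Type} [Field L] {H : Finset (Finset V)} {t : Finset V → V → A → Fˣ} (h : Generic H t)
    (φ : Fˣ →* Lˣ) (hφ : Function.Injective φ) : Generic H fun K i α => φ (t K i α) := by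
  refine ⟨fun i α => ?_, fun e he h1 => h.2 e he (hφ ?_)⟩
  · rw [← map_prod, h.1 i α, map_one]
  · rw [map_one, ← h1]
    simp only [map_prod, map_zpow]

theorem le_choose {n k : ℕ} (hk : 1 ≤ k) (hkn : k < n) : n ≤ n.choose k := by
  have h1 := Pool.Agent.Helper1x.EP.choose_window (n := n) (d := n - 1) (i := k) (by omega) (by omega) (by omega)
    (by omega)
  have h2 : (n - (n - 1) + 1) / 2 = 1 := by omega
  rwa [h2, Nat.choose_one_right] at h1

theorem sum_sq2 (G : ℕ) (m : ℕ → ℕ) : G + ∑ k ∈ range G, m k * m k ≤ (∑ k ∈ range G, (m k + 1)) ^ 2 := by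
  have h1 : G + ∑ k ∈ range G, m k * m k = ∑ k ∈ range G, (m k * m k + 1) := by
    rw [Finset.sum_add_distrib, Finset.sum_const, card_range, smul_eq_mul, mul_one, add_comm]
  rw [h1, sq, Finset.sum_mul]
  refine Finset.sum_le_sum fun k hk => ?_
  have h2 : m k + 1 ≤ ∑ k ∈ range G, (m k + 1) :=
    Finset.single_le_sum (f := fun k => m k + 1) (fun _ _ => Nat.zero_le _) hk
  calc m k * m k + 1 ≤ (m k + 1) * (m k + 1) := by nlinarith
    _ ≤ _ := Nat.mul_le_mul_left _ h2

/-- the assignments with walks at a gate -/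
theorem walks_small {k : ℕ} (hA : 2 ≤ Fintype.card A) (hk : 2 ≤ k) (hkn : k ≤ Fintype.card V)
    {t : Finset V → V → A → Fˣ} (ht : Generic (scopes V k) t) {a w0 : ℕ} (hw : 49 * (scopes V k).card ≤ 100 * w0)
    (hw0 : 0 < w0) (hw1 : 100 * w0 ≤ 51 * (scopes V k).card) (hw2 : 2 * w0 + a ≤ (scopes V k).card + 1)
    (ha : 2 * a ≤ (scopes V k).card)
    {w : (V → A) → Finset V → Fˣ} (hwt : ∀ x P, wt w x P = wts t x P) {ι : Type} [Fintype ι] [DecidableEq ι]
    {b μ : ι → Fˣ} {Z : Finset ι} {M : ℕ} (hM : ∀ X : Finset (V → A), Small X → X.card ≤ M) {X : Finset (V → A)}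
    (hX : ∀ x ∈ X, ∃ B r D, B ⊆ scopes V k ∧ (scopes V k).card - a < B.card ∧ Walks w a b μ Z x B r D) :
    X.card ≤ (Fintype.card ι * Fintype.card ι + 1) * M := by
  classical
  rcases X.eq_empty_or_nonempty with h0 | ⟨y, hy⟩
  · rw [h0, Finset.card_empty]
    exact Nat.zero_le _
  obtain ⟨By, ry, Dy, hy1, hy2, hy3⟩ := hX y hy
  set N := (scopes V k).card with hN
  set rel : ι × ι → Finset (V → A) := fun v => univ.filter fun x => ∃ P ⊆ scopes V k, ∃ R ⊆ scopes V k,
    w0 ≤ P.card ∧ w0 + P.card ≤ N ∧ b v.1 * wts t y R = b v.2 * wts t x P with hrel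
  have hcov : X ⊆ (univ.filter fun x : V → A => 10 * (univ.filter fun i => x i ≠ y i).card ≤ 3 * Fintype.card V) ∪
      univ.biUnion rel := by
    intro x hx
    rw [mem_union]
    by_cases hball : 10 * (univ.filter fun i => x i ≠ y i).card ≤ 3 * Fintype.card V
    · exact Or.inl (mem_filter.2 ⟨mem_univ _, hball⟩)
    right
    set Δ : Finset V := univ.filter fun i => x i ≠ y i with hΔ
    have hΔn : Δ.card ≤ Fintype.card V := Finset.card_le_univ _
    obtain ⟨B, r, D, h1, h2, h3⟩ := hX x hx
    have hsq : (10 * (Fintype.card V - Δ.card)) ^ 2 ≤ (7 * Fintype.card V) ^ 2 := Nat.pow_le_pow_left (by omega) 2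
    -- a scope in `B` which meets `Δ`
    have hex : ∃ i0 ∈ Δ, ∃ K0 ∈ B, i0 ∈ K0 := by
      by_contra hcon
      push Not at hcon
      have h4 := (t_COMB2 V k hk B Δ h1).2 hcon
      have h5 : 100 * B.card * Fintype.card V ^ 2 ≤ 49 * N * Fintype.card V ^ 2 := by
        calc 100 * B.card * Fintype.card V ^ 2 = 100 * (B.card * Fintype.card V ^ 2) := by ring
          _ ≤ 100 * (N * (Fintype.card V - Δ.card) ^ 2) := Nat.mul_le_mul_left _ h4
          _ = N * (10 * (Fintype.card V - Δ.card)) ^ 2 := by ring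
          _ ≤ N * (7 * Fintype.card V) ^ 2 := Nat.mul_le_mul_left _ hsq
          _ = _ := by ring
      have h6 : 0 < Fintype.card V ^ 2 := pow_pos (by omega) 2
      have h7 := Nat.le_of_mul_le_mul_right h5 h6
      omega
    obtain ⟨i0, hi0, K0, hK0, hi0K⟩ := hex
    obtain ⟨z0, hz0, hK0D⟩ := h3.2.2.2.2.2.2.2 K0 hK0
    obtain ⟨W, W', h4, h5, h6, h7, h8, h9⟩ := relative h3 hy3 hz0 (w0 := w0)
    rw [hwt, hwt] at h8
    have hWH := h5.trans h1
    have hWH' := h6.trans hy1
    have hK0W := h4 hK0D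
    rcases t_WEQ F V A k hk hkn t ht x y W W' hWH hWH' h8.symm with h10 | h10 | h10
    · obtain ⟨hWW, hag⟩ := h10
      have hfull0 : ∀ K ∈ scopes V k, i0 ∈ K → K ∈ W := by
        intro K hK hiK
        by_contra hKW
        exact (mem_filter.1 hi0).2 (hag i0 (mem_filter.2 ⟨mem_univ _, ⟨K0, hK0W, hi0K⟩, K,
          mem_sdiff.2 ⟨hK, hKW⟩, hiK⟩))
      have hfull : ∀ i ∈ Δ, ∀ K ∈ scopes V k, i ∈ K → K ∈ W := by
        intro i hi K hK hiK
        by_contra hKW
        -- a scope which contains `i` and `i0`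
        obtain ⟨K1, hK1a, hK1b⟩ : ∃ K1 : Finset V, {i, i0} ⊆ K1 ∧ K1.card = k := by
          obtain ⟨K1, h11, _, h12⟩ := Finset.exists_subsuperset_card_eq (Finset.subset_univ ({i, i0} : Finset V))
            (n := k) ((Finset.card_le_two).trans hk) (by rw [Finset.card_univ]; exact hkn)
          exact ⟨K1, h11, h12⟩
        have hK1 : K1 ∈ scopes V k := Finset.mem_powersetCard.2 ⟨Finset.subset_univ _, hK1b⟩
        have h11 := hfull0 K1 hK1 (hK1a (by simp))
        exact (mem_filter.1 hi).2 (hag i (mem_filter.2 ⟨mem_univ _, ⟨K1, h11, hK1a (by simp)⟩, K,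
          mem_sdiff.2 ⟨hK, hKW⟩, hiK⟩))
      have h11 := (t_COMB2 V k hk W Δ hWH).1 hfull
      have h12 : 100 * (N - W.card) * Fintype.card V ^ 2 ≤ 49 * N * Fintype.card V ^ 2 := by
        calc 100 * (N - W.card) * Fintype.card V ^ 2 = 100 * ((N - W.card) * Fintype.card V ^ 2) := by ring
          _ ≤ 100 * (N * (Fintype.card V - Δ.card) ^ 2) := Nat.mul_le_mul_left _ h11
          _ = N * (10 * (Fintype.card V - Δ.card)) ^ 2 := by ring
          _ ≤ N * (7 * Fintype.card V) ^ 2 := Nat.mul_le_mul_left _ hsq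
          _ = _ := by ring
      have h13 : 0 < Fintype.card V ^ 2 := pow_pos (by omega) 2
      have h14 := Nat.le_of_mul_le_mul_right h12 h13
      have h15 : w0 ≤ W.card := by omega
      obtain ⟨v, hv, v', hv', P, hP, P', hP', h16, h17, h18⟩ := h9 hw0 h15
      rw [hwt, hwt] at h18
      exact mem_biUnion.2 ⟨(v, v'), mem_univ _, mem_filter.2 ⟨mem_univ _, P, hP.trans h1, P', hP'.trans hy1, h16,
        by omega, h18⟩⟩
    · rw [h10.2] at h7
      exact absurd h7 Finset.not_nonempty_empty
    · rw [h10.1] at hK0W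
      exact absurd hK0W (Finset.notMem_empty _)
  refine (Finset.card_le_card hcov).trans ((Finset.card_union_le _ _).trans ?_)
  have h1 : (univ.filter fun x : V → A => 10 * (univ.filter fun i => x i ≠ y i).card ≤
      3 * Fintype.card V).card ≤ M := hM _ (small_ball hA (z := y) fun x hx => (mem_filter.1 hx).2)
  have h2 : (univ.biUnion rel).card ≤ Fintype.card ι * Fintype.card ι * M := by
    refine Finset.card_biUnion_le.trans ?_
    refine (Finset.sum_le_card_nsmul _ _ M fun v _ => hM _ (small_rel hA hk hkn ht hw (by omega) y (b v.1) (b v.2)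
      fun x hx => (mem_filter.1 hx).2)).trans ?_
    rw [Finset.card_univ, Fintype.card_prod, smul_eq_mul]
  calc _ ≤ M + Fintype.card ι * Fintype.card ι * M := Nat.add_le_add h1 h2
    _ = _ := by ring

open Classical in
/-- The lower bound. -/
theorem lower {k : ℕ} (hn : 200 ≤ Fintype.card V) (hA : 2 ≤ Fintype.card A) (hk : 2 ≤ k) (hkn : k < Fintype.card V)
    {t : Finset V → V → A → Fˣ} (ht : Generic (scopes V k) t) {G : ℕ} {p : ℕ → MvPolynomial (V → Option A) F}
    {m : ℕ → ℕ} (hc : Circuit (gauge t) G p m) {f : MvPolynomial (V → Option A) F} (hf : f ∈ Earlier p G) {R : ℕ}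
    (hR : Fintype.card A ^ Fintype.card V ≤ R * (univ.filter fun x : V → A =>
      MvPolynomial.coeff (mon x (scopes V k)) f ≠ 0).card) :
    2 ^ Fintype.card V ≤ (2 * R * (∑ j ∈ range G, (m j + 1)) ^ 2) ^ 10 := by
  set s : ℕ := ∑ j ∈ range G, (m j + 1) with hs
  set N := (scopes V k).card with hN
  have hNn : Fintype.card V ≤ N := by
    rw [hN, card_scopes]
    exact le_choose (by omega) hkn
  set a : ℕ := (N + 99) / 100 with ha
  set w0 : ℕ := (49 * N + 99) / 100 with hw0
  set L := AlgebraicClosure F with hL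
  set t' : Finset V → V → A → Lˣ := fun K i α => ju F L (t K i α) with ht'
  have hgen : Generic (scopes V k) t' := ht.map _ ju_injective
  set v : (V → A) → Finset V → (V → Option A) := fun x K => restr K x with hv
  have hvi : ∀ x, Function.Injective (v x) := fun x => restr_injective x
  set w : (V → A) → Finset V → Lˣ := fun x K => ju F L (gu t (v x K)) with hw
  have hwt : ∀ x P, wt w x P = wts t' x P := by
    intro x P
    unfold wt wts
    refine Finset.prod_congr rfl fun K _ => ?_
    rw [hw]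
    simp only [hv]
    rw [gu_restr, map_prod]
  choose l b μ hstr using fun j => circuit_str (L := L) (E := scopes V k) (v := v) (c := gu t) hvi hc j
  set Z : ∀ j, Finset (Fin (m j)) := fun j => univ.filter fun u => b j u ≠ μ j u with hZ
  have hunit : ∀ x, ∀ P ⊆ scopes V k, wt w x P = 1 → P = ∅ ∨ P = scopes V k := by
    intro x P hP h1
    rcases t_WEQ L V A k hk hkn.le t' hgen x x P ∅ hP (Finset.empty_subset _) (by
      rw [← hwt, h1]
      simp [wts]) with h2 | h2 | h2
    · exact Or.inl h2.1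
    · exact Or.inr h2.1
    · exact Or.inl h2.1
  have hdesc := descent (w := w) (E := scopes V k) hunit (G := G) (m := m) (l := l) (b := b) (μ := μ) (Z := Z)
    (a := a) (by omega) (by omega) (Q := Occ (scopes V k) v p) (fun j x P h => h.1)
    (fun j hj x P h => (hstr j hj).1 x P h)
    (fun j hj z hz z' hz' => (hstr j hj).2.1 z z' (mem_filter.1 hz).2 (mem_filter.1 hz').2)
    (fun j hj u hu => by
      by_contra h
      exact hu (mem_filter.2 ⟨mem_univ _, h⟩))
    (fun j hj => (hstr j hj).2.2)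
  -- the largest size of a small set
  set q := Fintype.card A ^ Fintype.card V with hq
  set M := Nat.findGreatest (fun M => M ^ 10 * 2 ^ Fintype.card V ≤ q ^ 10) q with hM
  have hM1 : M ^ 10 * 2 ^ Fintype.card V ≤ q ^ 10 := by
    have h0 : (fun M => M ^ 10 * 2 ^ Fintype.card V ≤ q ^ 10) 0 := by simp
    exact Nat.findGreatest_spec (P := fun M => M ^ 10 * 2 ^ Fintype.card V ≤ q ^ 10) (Nat.zero_le q) h0
  have hM2 : ∀ X : Finset (V → A), Small X → X.card ≤ M := by
    intro X hX
    refine Nat.le_findGreatest ?_ hX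
    have h1 := Finset.card_le_univ X
    rwa [Fintype.card_fun] at h1
  set cutset : Lˣ → Finset (V → A) := fun h => univ.filter fun x =>
    ∃ P ⊆ scopes V k, a ≤ P.card ∧ P.card ≤ N - a ∧ wts t' x P = h with hcut
  set walkset : ℕ → Finset (V → A) := fun j => univ.filter fun x =>
    ∃ B r D, B ⊆ scopes V k ∧ N - a < B.card ∧ Walks w a (b j) (μ j) (Z j) x B r D with hwalk
  have hcover : (univ.filter fun x : V → A => MvPolynomial.coeff (mon x (scopes V k)) f ≠ 0) ⊆
      (labels G m l b μ).biUnion cutset ∪ (range G).biUnion walkset := by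
    intro x hx
    have h1 := part_of_earlier (E := scopes V k) (v := v) hf (x := x) (Finset.Subset.refl _) (mem_filter.1 hx).2
    rcases h1 with h1 | ⟨j, hj, h1⟩
    · omega
    · rw [mem_union]
      rcases hdesc j hj x (scopes V k) h1 (by omega) with ⟨P, h2, h3, h4, h5⟩ | ⟨i, hi, B, r, D, h2, h3, h4⟩
      · refine Or.inl (mem_biUnion.2 ⟨_, h5, mem_filter.2 ⟨mem_univ _, P, h2, h3, h4, (hwt x P).symm⟩⟩)
      · exact Or.inr (mem_biUnion.2 ⟨i, mem_range.2 hi, mem_filter.2 ⟨mem_univ _, B, r, D, h2.1, h3, h4⟩⟩)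
  have h1 : ((labels G m l b μ).biUnion cutset).card ≤ (G + ∑ j ∈ range G, m j * m j) * M := by
    refine Finset.card_biUnion_le.trans ?_
    refine (Finset.sum_le_card_nsmul _ _ M fun h _ => hM2 _ (small_cut hA hk hkn.le hgen (a := a) (by omega)
      (by omega) (by omega) h fun x hx => (mem_filter.1 hx).2)).trans ?_
    rw [smul_eq_mul]
    exact Nat.mul_le_mul_right _ (card_labels G m l b μ)
  have h2 : ((range G).biUnion walkset).card ≤ (G + ∑ j ∈ range G, m j * m j) * M := by
    refine Finset.card_biUnion_le.trans ?_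
    have h3 : ∀ j ∈ range G, (walkset j).card ≤ (m j * m j + 1) * M := by
      intro j _
      have h4 := walks_small hA hk hkn.le hgen (a := a) (w0 := w0) (by omega) (by omega) (by omega) (by omega)
        (by omega) hwt (b := b j) (μ := μ j) (Z := Z j) hM2 (X := walkset j) fun x hx => (mem_filter.1 hx).2
      rwa [Fintype.card_fin] at h4
    refine (Finset.sum_le_sum h3).trans ?_
    rw [← Finset.sum_mul]
    refine Nat.mul_le_mul_right _ ?_
    rw [Finset.sum_add_distrib, Finset.sum_const, card_range, smul_eq_mul, mul_one, add_comm]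
  have h3 : q ≤ 2 * R * s ^ 2 * M := by
    refine hR.trans ?_
    calc R * (univ.filter fun x : V → A => MvPolynomial.coeff (mon x (scopes V k)) f ≠ 0).card ≤
        R * ((G + ∑ j ∈ range G, m j * m j) * M + (G + ∑ j ∈ range G, m j * m j) * M) :=
          Nat.mul_le_mul_left _ ((Finset.card_le_card hcover).trans ((Finset.card_union_le _ _).trans
            (Nat.add_le_add h1 h2)))
      _ = 2 * R * (G + ∑ j ∈ range G, m j * m j) * M := by ring
      _ ≤ 2 * R * s ^ 2 * M := Nat.mul_le_mul_right _ (Nat.mul_le_mul_left _ (sum_sq2 G m))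
  have hqpos : 0 < q := pow_pos (by omega) _
  have hqpos : 0 < q ^ 10 := pow_pos hqpos 10
  refine Nat.le_of_mul_le_mul_left ?_ hqpos
  calc q ^ 10 * 2 ^ Fintype.card V ≤ (2 * R * s ^ 2 * M) ^ 10 * 2 ^ Fintype.card V :=
        Nat.mul_le_mul_right _ (Nat.pow_le_pow_left h3 10)
    _ = (2 * R * s ^ 2) ^ 10 * (M ^ 10 * 2 ^ Fintype.card V) := by ring
    _ ≤ (2 * R * s ^ 2) ^ 10 * q ^ 10 := Nat.mul_le_mul_left _ hM1
    _ = q ^ 10 * (2 * R * s ^ 2) ^ 10 := mul_comm _ _

end

end Pool.Agent.Helper1x.EG
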