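import Pool.Agent.Helper1x.EG.Def

/-!
# Piece BALL of project EG: Hamming balls
-/

set_option autoImplicit false

namespace Pool.Agent.Helper1x.EG

open Finset

theorem ball_sum {V A : Type} [Fintype V] [DecidableEq V] [Fintype A] [DecidableEq A] (z : V → A) :
    ∑ x : V → A, 2 ^ (univ.filter fun i => x i = z i).card =
      (Fintype.card A + 1) ^ Fintype.card V := by
  have h1 : ∀ x : V → A, 2 ^ (univ.filter fun i => x i = z i).card =
      ∏ i, (if x i = z i then 2 else 1) := by
    intro x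
    rw [Finset.prod_ite, Finset.prod_const, Finset.prod_const_one, mul_one]
  rw [Finset.sum_congr rfl fun x _ => h1 x]
  have h2 := Finset.prod_univ_sum (fun _ : V => (univ : Finset A))
    (fun i α => if α = z i then 2 else 1)
  rw [Fintype.piFinset_univ] at h2
  rw [← h2]
  have h3 : ∀ i : V, ∑ α : A, (if α = z i then 2 else 1) = Fintype.card A + 1 := by
    intro i
    have h4 : ∀ α : A, (if α = z i then 2 else 1) = 1 + if α = z i then 1 else 0 := by
      intro α
      split_ifs <;> rfl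
    rw [Finset.sum_congr rfl fun α _ => h4 α, Finset.sum_add_distrib, Finset.sum_ite_eq']
    simp
  rw [Finset.prod_congr rfl fun i _ => h3 i, Finset.prod_const, Finset.card_univ]

theorem ball_num {q : ℕ} (hq : 2 ≤ q) : (q + 1) ^ 10 * 2 ^ 3 * 2 ≤ q ^ 10 * 2 ^ 10 := by
  have h1 : (2 * (q + 1)) ^ 10 ≤ (3 * q) ^ 10 := Nat.pow_le_pow_left (by omega) 10
  rw [mul_pow, mul_pow] at h1
  norm_num at h1 ⊢
  omega

theorem t_BALL : S_BALL := by
  intro V A _ _ _ _ hq z
  set n := Fintype.card V with hn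
  set q := Fintype.card A with hqd
  set B := (univ.filter fun x : V → A => 10 * (univ.filter fun i => x i ≠ z i).card ≤ 3 * n) with hB
  have h1 : B.card * 2 ^ (n - 3 * n / 10) ≤ (q + 1) ^ n := by
    rw [← ball_sum z]
    calc B.card * 2 ^ (n - 3 * n / 10) = ∑ x ∈ B, 2 ^ (n - 3 * n / 10) := by
          rw [Finset.sum_const, smul_eq_mul]
      _ ≤ ∑ x ∈ B, 2 ^ (univ.filter fun i => x i = z i).card := by
          refine Finset.sum_le_sum fun x hx => Nat.pow_le_pow_right (by norm_num) ?_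
          have h2 := (Finset.mem_filter.1 hx).2
          have h3 := Finset.card_filter_add_card_filter_not (s := (univ : Finset V))
            (fun i => x i = z i)
          rw [Finset.card_univ] at h3
          have h4 : (univ.filter fun i => x i ≠ z i).card = (univ.filter fun i => ¬ x i = z i).card :=
            rfl
          omega
      _ ≤ ∑ x : V → A, 2 ^ (univ.filter fun i => x i = z i).card :=
          Finset.sum_le_sum_of_subset (Finset.subset_univ _)
  have h2 : B.card ^ 10 * 2 ^ (10 * n) ≤ ((q + 1) ^ 10 * 2 ^ 3) ^ n := by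
    have h3 := Nat.pow_le_pow_left h1 10
    have h4 : B.card ^ 10 * 2 ^ (10 * n) ≤ (B.card * 2 ^ (n - 3 * n / 10)) ^ 10 * 2 ^ (3 * n) := by
      rw [mul_pow, mul_assoc, ← pow_mul, ← pow_add]
      exact Nat.mul_le_mul_left _ (Nat.pow_le_pow_right (by norm_num) (by omega))
    refine h4.trans ((Nat.mul_le_mul_right _ h3).trans (le_of_eq ?_))
    rw [mul_pow, ← pow_mul, ← pow_mul, ← pow_mul]
    ring
  have h3 := Nat.pow_le_pow_left (ball_num hq) n
  have h4 : B.card ^ 10 * 2 ^ n * 2 ^ (10 * n) ≤ (q ^ n) ^ 10 * 2 ^ (10 * n) := by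
    calc B.card ^ 10 * 2 ^ n * 2 ^ (10 * n) = B.card ^ 10 * 2 ^ (10 * n) * 2 ^ n := by ring
      _ ≤ ((q + 1) ^ 10 * 2 ^ 3) ^ n * 2 ^ n := Nat.mul_le_mul_right _ h2
      _ = ((q + 1) ^ 10 * 2 ^ 3 * 2) ^ n := by rw [mul_pow _ 2]
      _ ≤ (q ^ 10 * 2 ^ 10) ^ n := h3
      _ = (q ^ n) ^ 10 * 2 ^ (10 * n) := by
          rw [mul_pow, ← pow_mul, ← pow_mul, ← pow_mul, mul_comm 10 n, mul_comm n 10]
  exact Nat.le_of_mul_le_mul_right h4 (by positivity)

end Pool.Agent.Helper1x.EG
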