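import Pool.Agent.Helper1x.EG.Def

/-!
# Piece COMB of project EG: sets of scopes of the complete uniform hypergraph
-/

set_option autoImplicit false

namespace Pool.Agent.Helper1x.EG

open Finset Pool.Agent.HS38.GT

theorem choose_step2 {m k : ℕ} (hk : 2 ≤ k) : m.choose k * (m + 1) ^ 2 ≤ (m + 1).choose k * m ^ 2 := by
  rcases Nat.lt_or_ge m k with h | h
  · rw [Nat.choose_eq_zero_of_lt h, zero_mul]
    exact Nat.zero_le _
  · have h1 : m.choose k * (m + 1) = (m + 1).choose k * (m + 1 - k) := Nat.choose_mul_succ_eq m k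
    calc m.choose k * (m + 1) ^ 2 = m.choose k * (m + 1) * (m + 1) := by ring
      _ = (m + 1).choose k * ((m + 1 - k) * (m + 1)) := by rw [h1, mul_assoc]
      _ ≤ (m + 1).choose k * m ^ 2 := by
          apply Nat.mul_le_mul_left
          obtain ⟨c, hc⟩ : ∃ c, m = c + 1 := ⟨m - 1, by omega⟩
          have h2 : m + 1 - k ≤ c := by omega
          calc (m + 1 - k) * (m + 1) ≤ c * (m + 1) := Nat.mul_le_mul_right _ h2
            _ ≤ m ^ 2 := by
                rw [hc]
                ring_nf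
                omega

theorem choose_le2 {m n k : ℕ} (hk : 2 ≤ k) (h : m ≤ n) :
    m.choose k * n ^ 2 ≤ n.choose k * m ^ 2 := by
  induction n, h using Nat.le_induction with
  | base => exact le_rfl
  | succ n hn ih =>
    rcases Nat.eq_zero_or_pos n with h0 | h0
    · have hm : m = 0 := by omega
      rw [hm, Nat.choose_eq_zero_of_lt (by omega : 0 < k), zero_mul]
      exact Nat.zero_le _
    · have h1 := choose_step2 (m := n) hk
      have h2 : m.choose k * (n + 1) ^ 2 * n ^ 2 ≤ (n + 1).choose k * m ^ 2 * n ^ 2 := by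
        calc m.choose k * (n + 1) ^ 2 * n ^ 2 = m.choose k * n ^ 2 * (n + 1) ^ 2 := by ring
          _ ≤ n.choose k * m ^ 2 * (n + 1) ^ 2 := Nat.mul_le_mul_right _ ih
          _ = n.choose k * (n + 1) ^ 2 * m ^ 2 := by ring
          _ ≤ (n + 1).choose k * n ^ 2 * m ^ 2 := Nat.mul_le_mul_right _ h1
          _ = (n + 1).choose k * m ^ 2 * n ^ 2 := by ring
      exact Nat.le_of_mul_le_mul_right h2 (by positivity)

theorem card_scopes (V : Type) [Fintype V] [DecidableEq V] (k : ℕ) :
    (scopes V k).card = (Fintype.card V).choose k := by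
  rw [scopes, Finset.card_powersetCard, Finset.card_univ]

/-- few scopes avoid a set of variables -/
theorem card_avoid {V : Type} [Fintype V] [DecidableEq V] {k : ℕ} (hk : 2 ≤ k)
    (Q : Finset (Finset V)) (D : Finset V) (hQ : Q ⊆ scopes V k) (h : ∀ i ∈ D, ∀ K ∈ Q, i ∉ K) :
    Q.card * Fintype.card V ^ 2 ≤ (scopes V k).card * (Fintype.card V - D.card) ^ 2 := by
  have h1 : Q ⊆ Dᶜ.powersetCard k := by
    intro K hK
    rw [Finset.mem_powersetCard]
    refine ⟨fun i hi => Finset.mem_compl.2 fun hD => h i hD K hK hi, ?_⟩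
    exact (Finset.mem_powersetCard.1 (hQ hK)).2
  have h2 := Finset.card_le_card h1
  rw [Finset.card_powersetCard, Finset.card_compl] at h2
  rw [card_scopes]
  exact (Nat.mul_le_mul_right _ h2).trans (choose_le2 hk (Nat.sub_le _ _))

theorem t_COMB2 : S_COMB2 := by
  intro V _ _ k hk P D hP
  constructor
  · intro h
    rw [← Finset.card_sdiff_of_subset hP]
    refine card_avoid hk _ D Finset.sdiff_subset fun i hi K hK hiK => ?_
    rw [Finset.mem_sdiff] at hK
    exact hK.2 (h i hi K hK.1 hiK)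
  · intro h
    exact card_avoid hk P D hP h

theorem t_COMB : S_COMB := by
  intro V _ _ k hk hkn P w hP hw1 hw2
  obtain ⟨hA, hB⟩ := t_COMB2 V k hk P (cut (scopes V k) P)ᶜ hP
  have hcard : Fintype.card V - (cut (scopes V k) P)ᶜ.card = (cut (scopes V k) P).card := by
    rw [Finset.card_compl]
    have := Finset.card_le_univ (cut (scopes V k) P)
    omega
  rw [hcard] at hA hB
  have hD : ∀ i ∈ (cut (scopes V k) P)ᶜ, (∀ K ∈ P, i ∉ K) ∨
      ∀ K ∈ scopes V k, i ∈ K → K ∈ P := by
    intro i hi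
    rw [Finset.mem_compl, cut, Finset.mem_filter] at hi
    by_contra hcon
    push Not at hcon
    obtain ⟨⟨K, hK, hiK⟩, K', hK', hiK', hn⟩ := hcon
    exact hi ⟨Finset.mem_univ _, ⟨K, hK, hiK⟩, K', Finset.mem_sdiff.2 ⟨hK', hn⟩, hiK'⟩
  by_cases hfull : ∀ i ∈ (cut (scopes V k) P)ᶜ, ∀ K ∈ scopes V k, i ∈ K → K ∈ P
  · refine (Nat.mul_le_mul_right _ ?_).trans (hA hfull)
    omega
  by_cases hempty : ∀ i ∈ (cut (scopes V k) P)ᶜ, ∀ K ∈ P, i ∉ K
  · exact (Nat.mul_le_mul_right _ hw1).trans (hB hempty)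
  exfalso
  push Not at hfull hempty
  obtain ⟨i, hi, K, hK, hiK, hKP⟩ := hfull
  obtain ⟨j, hj, K', hK', hjK'⟩ := hempty
  have h1 : ∀ K ∈ P, i ∉ K := by
    rcases hD i hi with h | h
    · exact h
    · exact absurd (h K hK hiK) hKP
  have h2 : ∀ K ∈ scopes V k, j ∈ K → K ∈ P := by
    rcases hD j hj with h | h
    · exact absurd hjK' (h K' hK')
    · exact h
  obtain ⟨T, hT1, _, hT2⟩ := Finset.exists_subsuperset_card_eq (s := {i, j})
    (t := (univ : Finset V)) (n := k) (Finset.subset_univ _) ((Finset.card_le_two).trans hk)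
    (by rw [Finset.card_univ]; exact hkn)
  have hT : T ∈ scopes V k := Finset.mem_powersetCard.2 ⟨Finset.subset_univ _, hT2⟩
  exact h1 T (h2 T hT (hT1 (by simp))) (hT1 (by simp))

end Pool.Agent.Helper1x.EG
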