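import Pool.Agent.Helper1x.EG.Def

/-!
# Project EG, pieces WEQ and WHAT: equal weights and relative weights
-/

set_option autoImplicit false
set_option linter.unusedSectionVars false

namespace Pool.Agent.Helper1x.EG

open Finset Pool.Agent.HS38.GT

namespace Wgt

variable {F V A : Type} [Field F] [Fintype V] [DecidableEq V] [Fintype A] [DecidableEq A]

/-- the exponents of a weight -/
def ind (x : V → A) (P : Finset (Finset V)) (K : Finset V) (i : V) (α : A) : ℤ :=
  if K ∈ P ∧ x i = α then 1 else 0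

theorem wts_eq {H : Finset (Finset V)} (t : Finset V → V → A → Fˣ) (x : V → A)
    {P : Finset (Finset V)} (hP : P ⊆ H) :
    wts t x P = ∏ K ∈ H, ∏ i ∈ K, ∏ α, t K i α ^ ind x P K i α := by
  unfold wts
  rw [← prod_subset hP]
  · refine prod_congr rfl fun K hK => prod_congr rfl fun i _ => ?_
    rw [Fintype.prod_eq_single (x i)]
    · rw [ind, if_pos ⟨hK, rfl⟩, zpow_one]
    · intro α hα
      rw [ind, if_neg (fun h => hα h.2.symm), zpow_zero]
  · intro K _ hK
    refine prod_eq_one fun i _ => prod_eq_one fun α _ => ?_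
    rw [ind, if_neg (fun h => hK h.1), zpow_zero]

theorem ind_bd (x : V → A) (P : Finset (Finset V)) (K : Finset V) (i : V) (α : A) :
    0 ≤ ind x P K i α ∧ ind x P K i α ≤ 1 := by
  unfold ind
  split_ifs <;> simp

end Wgt

open Wgt

theorem t_WEQ : S_WEQ := by
  intro F _ V A _ _ _ _ k hk hkV t ht x x' P P' hP hP' hw
  rw [wts_eq t x hP, wts_eq t x' hP'] at hw
  have hgen := ht.2 (fun K i α => ind x P K i α - ind x' P' K i α) (by
    intro K i α
    have h1 := ind_bd x P K i α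
    have h2 := ind_bd x' P' K i α
    rw [abs_le]
    constructor <;> linarith [h1.1, h1.2, h2.1, h2.2]) (by
    simp only [zpow_sub, prod_mul_distrib, prod_inv_distrib]
    rw [hw, mul_inv_cancel])
  -- a scope
  have hscope : ∀ s : Finset V, s.card ≤ k → ∃ K ∈ scopes V k, s ⊆ K := by
    intro s hs
    obtain ⟨K, h1, h2⟩ := Finset.exists_superset_card_eq hs hkV
    exact ⟨K, mem_powersetCard.2 ⟨subset_univ _, h2⟩, h1⟩
  have hne : ∀ K ∈ scopes V k, K.Nonempty := by
    intro K hK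
    rw [← card_pos, (mem_powersetCard.1 hK).2]
    omega
  let a : Finset V → ℤ := fun K => if K ∈ P then 1 else 0
  let a' : Finset V → ℤ := fun K => if K ∈ P' then 1 else 0
  -- at different values
  have hdiff : ∀ i, x i ≠ x' i → ∀ K ∈ scopes V k, i ∈ K → ∀ K' ∈ scopes V k, i ∈ K' →
      a K = a K' ∧ a' K = a' K' := by
    intro i hi K hK hiK K' hK' hiK'
    have h1 := hgen i (x i) K hK hiK K' hK' hiK'
    have h2 := hgen i (x' i) K hK hiK K' hK' hiK'
    simp only [ind, and_true, hi, hi.symm, and_false, if_false, sub_zero, zero_sub, neg_inj] at h1 h2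
    exact ⟨h1, h2⟩
  have hloc : ∀ i, ∀ K ∈ scopes V k, i ∈ K → ∀ K' ∈ scopes V k, i ∈ K' →
      a K - a' K = a K' - a' K' := by
    intro i K hK hiK K' hK' hiK'
    by_cases hi : x i = x' i
    · have h1 := hgen i (x i) K hK hiK K' hK' hiK'
      simp only [ind, and_true, hi.symm] at h1
      exact h1
    · obtain ⟨h1, h2⟩ := hdiff i hi K hK hiK K' hK' hiK'
      rw [h1, h2]
  have hglob : ∀ K ∈ scopes V k, ∀ K' ∈ scopes V k, a K - a' K = a K' - a' K' := by
    intro K hK K' hK'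
    obtain ⟨i, hi⟩ := hne K hK
    obtain ⟨i', hi'⟩ := hne K' hK'
    obtain ⟨K₂, h1, h2⟩ := hscope {i, i'} ((card_le_two).trans hk)
    rw [hloc i K hK hi K₂ h1 (h2 (by simp)), hloc i' K₂ h1 (h2 (by simp)) K' hK' hi']
  obtain ⟨K₀, hK₀, -⟩ := hscope ∅ (by simp)
  by_cases h0 : K₀ ∈ P ↔ K₀ ∈ P'
  · left
    have hPP : P = P' := by
      have h1 : ∀ K ∈ scopes V k, (K ∈ P ↔ K ∈ P') := by
        intro K hK
        have h2 := hglob K hK K₀ hK₀
        have h3 : a K₀ - a' K₀ = 0 := by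
          simp only [a, a']
          by_cases h4 : K₀ ∈ P
          · rw [if_pos h4, if_pos (h0.1 h4)]; rfl
          · rw [if_neg h4, if_neg (fun h => h4 (h0.2 h))]; rfl
        rw [h3] at h2
        simp only [a, a'] at h2
        by_cases h4 : K ∈ P <;> by_cases h5 : K ∈ P' <;> simp [h4, h5] at h2 ⊢
      ext K
      constructor
      · intro h
        exact (h1 K (hP h)).1 h
      · intro h
        exact (h1 K (hP' h)).2 h
    refine ⟨hPP, fun i hi => ?_⟩
    by_contra hne'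
    rw [cut, mem_filter] at hi
    obtain ⟨-, ⟨K, hKP, hiK⟩, K', hK', hiK'⟩ := hi
    obtain ⟨hK'1, hK'2⟩ := mem_sdiff.1 hK'
    have h1 := (hdiff i hne' K (hP hKP) hiK K' hK'1 hiK').1
    simp only [a] at h1
    rw [if_pos hKP, if_neg hK'2] at h1
    exact one_ne_zero h1
  · right
    have h1 : (K₀ ∈ P ∧ K₀ ∉ P') ∨ (K₀ ∉ P ∧ K₀ ∈ P') := by
      by_cases h2 : K₀ ∈ P <;> by_cases h3 : K₀ ∈ P' <;> simp_all
    rcases h1 with ⟨h2, h3⟩ | ⟨h2, h3⟩
    · left
      have h4 : ∀ K ∈ scopes V k, K ∈ P ∧ K ∉ P' := by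
        intro K hK
        have h5 := hglob K hK K₀ hK₀
        simp only [a, a'] at h5
        rw [if_pos h2, if_neg h3] at h5
        by_cases h6 : K ∈ P <;> by_cases h7 : K ∈ P' <;> simp [h6, h7] at h5 ⊢
      exact ⟨Subset.antisymm hP fun K hK => (h4 K hK).1,
        Finset.eq_empty_iff_forall_notMem.2 fun K hK => (h4 K (hP' hK)).2 hK⟩
    · right
      have h4 : ∀ K ∈ scopes V k, K ∉ P ∧ K ∈ P' := by
        intro K hK
        have h5 := hglob K hK K₀ hK₀
        simp only [a, a'] at h5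
        rw [if_neg h2, if_pos h3] at h5
        by_cases h6 : K ∈ P <;> by_cases h7 : K ∈ P' <;> simp [h6, h7] at h5 ⊢
      exact ⟨Finset.eq_empty_iff_forall_notMem.2 fun K hK => (h4 K (hP hK)).1 hK,
        Subset.antisymm hP' fun K hK => (h4 K hK).2⟩

theorem t_WHAT : S_WHAT := by
  intro F _ V A _ _ _ _ H t ht y x₁ P₁ R₁ hP₁ hR₁
  refine ⟨fun i => if i ∈ cut H P₁ then x₁ i else y i, ?_⟩
  intro x P R hP hR hw i hi
  rw [wts_eq t x hP, wts_eq t y hR₁, wts_eq t x₁ hP₁, wts_eq t y hR] at hw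
  have hgen := ht.2 (fun K i α => (ind x P K i α - ind x₁ P₁ K i α) + (ind y R₁ K i α - ind y R K i α)) (by
    intro K i α
    have h1 := ind_bd x P K i α
    have h2 := ind_bd x₁ P₁ K i α
    have h3 := ind_bd y R₁ K i α
    have h4 := ind_bd y R K i α
    rw [abs_le]
    constructor <;> linarith [h1.1, h1.2, h2.1, h2.2, h3.1, h3.2, h4.1, h4.2]) (by
    simp only [zpow_add, zpow_sub, prod_mul_distrib, prod_inv_distrib]
    have h1 : ∀ a b c d : Fˣ, a * b = c * d → a * c⁻¹ * (b * d⁻¹) = 1 := by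
      intro a b c d h
      have : a * c⁻¹ * (b * d⁻¹) = (a * b) * (c * d)⁻¹ := by
        rw [mul_inv, mul_mul_mul_comm]
      rw [this, h, mul_inv_cancel]
    exact h1 _ _ _ _ hw)
  rw [cut, mem_filter] at hi
  obtain ⟨-, ⟨K, hKP, hiK⟩, K', hK', hiK'⟩ := hi
  obtain ⟨hK'1, hK'2⟩ := mem_sdiff.1 hK'
  have hKH := hP hKP
  by_cases hxy : x i = y i
  · by_cases h1 : x₁ i = y i
    · show x i = if i ∈ cut H P₁ then x₁ i else y i
      split_ifs
      · rw [h1, hxy]
      · exact hxy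
    · have h2 : i ∉ cut H P₁ := by
        intro h3
        rw [cut, mem_filter] at h3
        obtain ⟨-, ⟨K₁, hK₁, hi₁⟩, K₂, hK₂, hi₂⟩ := h3
        obtain ⟨h4, h5⟩ := mem_sdiff.1 hK₂
        have h6 := hgen i (x₁ i) K₁ (hP₁ hK₁) hi₁ K₂ h4 hi₂
        have h7 : x i ≠ x₁ i := by rw [hxy]; exact fun h => h1 h.symm
        have h8 : y i ≠ x₁ i := fun h => h1 h.symm
        simp [ind, h7, h8, hK₁, h5] at h6
      show x i = if i ∈ cut H P₁ then x₁ i else y i
      rw [if_neg h2]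
      exact hxy
  · have h1 := hgen i (x i) K hKH hiK K' hK'1 hiK'
    have h8 : y i ≠ x i := fun h => hxy h.symm
    simp only [ind, h8, and_false, if_false, and_true, hKP, if_true, hK'2, sub_self, add_zero] at h1
    have h2 : x₁ i = x i ∧ K ∈ P₁ ∧ K' ∉ P₁ := by
      by_cases h3 : x₁ i = x i <;> by_cases h4 : K ∈ P₁ <;> by_cases h5 : K' ∈ P₁ <;>
        simp [h3, h4, h5] at h1 ⊢
    have h3 : i ∈ cut H P₁ := by
      rw [cut, mem_filter]
      exact ⟨mem_univ _, ⟨K, h2.2.1, hiK⟩, K', mem_sdiff.2 ⟨hK'1, h2.2.2⟩, hiK'⟩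
    show x i = if i ∈ cut H P₁ then x₁ i else y i
    rw [if_pos h3, h2.1]

end Pool.Agent.Helper1x.EG
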