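import Pool.Agent.Helper1x.EG.Desc
import Pool.Agent.Helper1x.EG.Wgt
import Pool.Agent.Helper1x.EG.Comb
import Pool.Agent.Helper1x.EG.Ball

/-!
# Small sets of assignments
-/

set_option autoImplicit false

namespace Pool.Agent.Helper1x.EG

open Finset Pool.Agent.HS38 Pool.Agent.HS38.GT

section small

variable {V A : Type} [Fintype V] [DecidableEq V] [Fintype A] [DecidableEq A]

/-- a small set of assignments -/
def Small (X : Finset (V → A)) : Prop := X.card ^ 10 * 2 ^ Fintype.card V ≤ (Fintype.card A ^ Fintype.card V) ^ 10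

omit [DecidableEq V] [DecidableEq A] in
theorem Small.mono {X Y : Finset (V → A)} (hY : Small Y) (h : X ⊆ Y) : Small X :=
  (Nat.mul_le_mul_right _ (Nat.pow_le_pow_left (Finset.card_le_card h) 10)).trans hY

omit [DecidableEq A] in
theorem small_agree (hA : 2 ≤ Fintype.card A) {z : V → A} {C : Finset V} (hC : Fintype.card V ≤ 10 * C.card)
    {X : Finset (V → A)} (h : ∀ x ∈ X, ∀ i ∈ C, x i = z i) : Small X := by
  classical
  have h1 : X.card ≤ Fintype.card A ^ (Fintype.card V - C.card) := by
    have h2 : X.card ≤ (univ : Finset ({i // i ∉ C} → A)).card := by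
      refine Finset.card_le_card_of_injOn (fun x i => x i.1) (fun x _ => mem_univ _) ?_
      intro x hx x' hx' hxx
      funext i
      by_cases hi : i ∈ C
      · rw [h x hx i hi, h x' hx' i hi]
      · exact congrFun hxx ⟨i, hi⟩
    rwa [Finset.card_univ, Fintype.card_fun, Fintype.card_subtype, Finset.filter_notMem_eq_sdiff,
      ← Finset.compl_eq_univ_sdiff, Finset.card_compl] at h2
  unfold Small
  have h3 : C.card ≤ Fintype.card V := Finset.card_le_univ C
  calc X.card ^ 10 * 2 ^ Fintype.card V ≤
      (Fintype.card A ^ (Fintype.card V - C.card)) ^ 10 * Fintype.card A ^ (10 * C.card) := by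
        refine Nat.mul_le_mul (Nat.pow_le_pow_left h1 10) ?_
        exact (Nat.pow_le_pow_left hA _).trans (Nat.pow_le_pow_right (by omega) hC)
    _ = (Fintype.card A ^ Fintype.card V) ^ 10 := by
        rw [← pow_mul, ← pow_mul, ← pow_add]
        congr 1
        omega

theorem small_ball (hA : 2 ≤ Fintype.card A) {z : V → A} {X : Finset (V → A)}
    (h : ∀ x ∈ X, 10 * (univ.filter fun i => x i ≠ z i).card ≤ 3 * Fintype.card V) : Small X :=
  Small.mono (t_BALL V A hA z) fun x hx => mem_filter.2 ⟨mem_univ _, h x hx⟩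

variable {F : Type} [Field F] {k : ℕ} {t : Finset V → V → A → Fˣ}

/-- the assignments with a cut of a given weight -/
theorem small_cut (hA : 2 ≤ Fintype.card A) (hk : 2 ≤ k) (hkn : k ≤ Fintype.card V)
    (ht : Generic (scopes V k) t) {a : ℕ} (ha : 1 ≤ a) (ha2 : 2 * a ≤ (scopes V k).card)
    (ha3 : (scopes V k).card ≤ 100 * a) (h : Fˣ) {X : Finset (V → A)}
    (hX : ∀ x ∈ X, ∃ P ⊆ scopes V k, a ≤ P.card ∧ P.card ≤ (scopes V k).card - a ∧ wts t x P = h) : Small X := by
  rcases X.eq_empty_or_nonempty with h0 | ⟨x1, hx1⟩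
  · unfold Small
    rw [h0, Finset.card_empty, zero_pow (by norm_num), zero_mul]
    exact Nat.zero_le _
  · obtain ⟨P1, h1, h2, h3, h4⟩ := hX x1 hx1
    refine small_agree hA (z := x1) (C := GT.cut (scopes V k) P1) ?_ ?_
    · have h5 := t_COMB V k hk hkn P1 a h1 h2 (by omega)
      have h6 : 0 < (scopes V k).card := by omega
      have h7 : (scopes V k).card * Fintype.card V ^ 2 ≤
          (scopes V k).card * (10 * (GT.cut (scopes V k) P1).card) ^ 2 := by
        calc (scopes V k).card * Fintype.card V ^ 2 ≤ 100 * a * Fintype.card V ^ 2 := Nat.mul_le_mul_right _ ha3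
          _ = 100 * (a * Fintype.card V ^ 2) := by ring
          _ ≤ 100 * ((scopes V k).card * (GT.cut (scopes V k) P1).card ^ 2) := Nat.mul_le_mul_left _ h5
          _ = _ := by ring
      exact (Nat.pow_le_pow_iff_left two_ne_zero).1 (Nat.le_of_mul_le_mul_left h7 h6)
    · intro x hx i hi
      obtain ⟨P, h5, h6, h7, h8⟩ := hX x hx
      rcases t_WEQ F V A k hk hkn t ht x1 x P1 P h1 h5 (h4.trans h8.symm) with h9 | h9 | h9
      · exact (h9.2 i hi).symm
      · rw [h9.1] at h3
        omega
      · rw [h9.1, Finset.card_empty] at h2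
        omega

/-- the assignments with a relative cut -/
theorem small_rel (hA : 2 ≤ Fintype.card A) (hk : 2 ≤ k) (hkn : k ≤ Fintype.card V)
    (ht : Generic (scopes V k) t) {w0 : ℕ} (hw : 49 * (scopes V k).card ≤ 100 * w0) (hN : 0 < (scopes V k).card)
    (y : V → A) (b b' : Fˣ) {X : Finset (V → A)}
    (hX : ∀ x ∈ X, ∃ P ⊆ scopes V k, ∃ R ⊆ scopes V k, w0 ≤ P.card ∧ w0 + P.card ≤ (scopes V k).card ∧
      b * wts t y R = b' * wts t x P) : Small X := by
  rcases X.eq_empty_or_nonempty with h0 | ⟨x1, hx1⟩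
  · unfold Small
    rw [h0, Finset.card_empty, zero_pow (by norm_num), zero_mul]
    exact Nat.zero_le _
  · obtain ⟨P1, h1, R1, h2, h3, h4, h5⟩ := hX x1 hx1
    obtain ⟨z, hz⟩ := t_WHAT F V A (scopes V k) t ht y x1 P1 R1 h1 h2
    refine small_ball hA (z := z) fun x hx => ?_
    obtain ⟨P, h6, R, h7, h8, h9, h10⟩ := hX x hx
    have h11 := hz x P R h6 h7 (by
      have h12 : b' * b * (wts t x P * wts t y R1) = b' * b * (wts t x1 P1 * wts t y R) := by
        calc b' * b * (wts t x P * wts t y R1) = (b' * wts t x P) * (b * wts t y R1) := by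
              rw [mul_mul_mul_comm]
          _ = (b * wts t y R) * (b' * wts t x1 P1) := by rw [h10, h5]
          _ = (b' * wts t x1 P1) * (b * wts t y R) := mul_comm _ _
          _ = b' * b * (wts t x1 P1 * wts t y R) := by rw [mul_mul_mul_comm]
      exact mul_left_cancel h12)
    have h12 := t_COMB V k hk hkn P w0 h6 h8 h9
    have h13 : (scopes V k).card * (7 * Fintype.card V) ^ 2 ≤
        (scopes V k).card * (10 * (GT.cut (scopes V k) P).card) ^ 2 := by
      calc (scopes V k).card * (7 * Fintype.card V) ^ 2 = 49 * (scopes V k).card * Fintype.card V ^ 2 := by ring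
        _ ≤ 100 * w0 * Fintype.card V ^ 2 := Nat.mul_le_mul_right _ hw
        _ = 100 * (w0 * Fintype.card V ^ 2) := by ring
        _ ≤ 100 * ((scopes V k).card * (GT.cut (scopes V k) P).card ^ 2) := Nat.mul_le_mul_left _ h12
        _ = _ := by ring
    have h14 := (Nat.pow_le_pow_iff_left two_ne_zero).1 (Nat.le_of_mul_le_mul_left h13 hN)
    have h15 : (univ.filter fun i => x i ≠ z i).card ≤ (GT.cut (scopes V k) P)ᶜ.card := by
      refine Finset.card_le_card fun i hi => ?_
      rw [Finset.mem_compl]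
      intro h16
      exact (mem_filter.1 hi).2 (h11 i h16)
    rw [Finset.card_compl] at h15
    omega

end small

end Pool.Agent.Helper1x.EG
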