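import Pool.Agent.Helper1x.EC.Def
import Pool.Agent.HS38.GT.Defs

/-!
# Gauge equivariant circuits with determinant gates for the counting polynomials of #CSP: definitions and pieces

Project EG (helper1). `HS38/GT/Defs.lean` (helper38) defines the counting polynomial `Z F A H`, `restr`, `gauge`, `IsGauge`,
`scopes V k`, `cut`; `Helper1x/EC/Def.lean` defines circuits. A file `Pool/Agent/Helper1x/EG/<Name>.lean` proves
`theorem Pool.Agent.Helper1x.EG.t_<NAME> : S_<NAME>`.
-/

set_option autoImplicit false

namespace Pool.Agent.Helper1x.EG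

open Finset Pool.Agent.HS38.GT

/-- the part of the monomial of the assignment `x` in the set `P` of scopes -/
noncomputable def mon {V A : Type} [Fintype V] [DecidableEq V] (x : V → A) (P : Finset (Finset V)) :
    (V → Option A) →₀ ℕ := ∑ K ∈ P, Finsupp.single (restr K x) 1

/-- The numbers `t K i α` define a gauge symmetry (the product over all scopes which contain `i` is one) and there are no
further multiplicative relations with exponents of absolute value at most two. -/
def Generic {F V A : Type} [Field F] [Fintype V] [DecidableEq V] [Fintype A] [DecidableEq A] (H : Finset (Finset V))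
    (t : Finset V → V → A → Fˣ) : Prop :=
  IsGauge H t ∧ ∀ e : Finset V → V → A → ℤ, (∀ K i α, |e K i α| ≤ 2) →
    ∏ K ∈ H, ∏ i ∈ K, ∏ α, t K i α ^ e K i α = 1 →
    ∀ i α, ∀ K ∈ H, i ∈ K → ∀ K' ∈ H, i ∈ K' → e K i α = e K' i α

/-- the weight of a part of an assignment -/
def wts {F V A : Type} [Field F] (t : Finset V → V → A → Fˣ) (x : V → A) (P : Finset (Finset V)) : Fˣ :=
  ∏ K ∈ P, ∏ i ∈ K, t K i (x i)

/-! ### Pieces -/

/-- GENG. Generic gauge symmetries exist (adapt `HS38/GT/GEN1.lean`, drop `o`). -/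
def S_GENG : Prop := ∀ (F : Type) [Field F] [Infinite F] (V A : Type) [Fintype V] [DecidableEq V] [Fintype A]
  [DecidableEq A] (H : Finset (Finset V)), ∃ t : Finset V → V → A → Fˣ, Generic H t

/-- WEQ. Equal weights. Proof. The exponents `e K i α = [K ∈ P ∧ x i = α] - [K ∈ P' ∧ x' i = α]` are independent of
`K ∋ i`. Case `x i ≠ x' i`: `[K ∈ P]` and `[K ∈ P']` are both independent of `K ∋ i` (take `α = x i`, `α = x' i`). Case
`x i = x' i`: `[K ∈ P] - [K ∈ P']` is independent of `K ∋ i`. So in all cases `[K ∈ P] - [K ∈ P']` is the same for all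
`K ∋ i`; as any two variables are in a common scope (`2 ≤ k ≤ |V|`) it is the same for all scopes. If it is `0` then
`P = P'`, and `x i = x' i` for `i` in `cut H P` by the first case; if it is `1` (`-1`) then `P = H`, `P' = ∅` (`P = ∅`,
`P' = H`). -/
def S_WEQ : Prop := ∀ (F : Type) [Field F] (V A : Type) [Fintype V] [DecidableEq V] [Fintype A] [DecidableEq A] (k : ℕ),
  2 ≤ k → k ≤ Fintype.card V → ∀ t : Finset V → V → A → Fˣ, Generic (scopes V k) t → ∀ (x x' : V → A)
  (P P' : Finset (Finset V)), P ⊆ scopes V k → P' ⊆ scopes V k → wts t x P = wts t x' P' →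
  (P = P' ∧ ∀ i ∈ cut (scopes V k) P, x i = x' i) ∨ (P = scopes V k ∧ P' = ∅) ∨ (P = ∅ ∧ P' = scopes V k)

/-- WHAT. Relative weights: fix assignments `y`, `x₁` and sets `P₁`, `R₁`. All `x` with
`wts x P * wts y R₁ = wts x₁ P₁ * wts y R` for some `P`, `R` are given by one assignment `z` at the variables in
`cut H P`. Proof. `z i = x₁ i` for `i ∈ cut H P₁` and `z i = y i` otherwise. For `α ≠ y i` the exponents at `α` are
`[K ∈ P ∧ x i = α] - [K ∈ P₁ ∧ x₁ i = α]` (those of `y` vanish), independent of `K ∋ i`. Let `i ∈ cut H P`, that is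
`[K ∈ P]` depends on `K ∋ i`. If `x i ≠ y i` take `α = x i`: then `x₁ i = α` and `i ∈ cut H P₁`, so `z i = x i`. If
`x i = y i` and `x₁ i ≠ y i` take `α = x₁ i`: then `[K ∈ P₁]` does not depend on `K ∋ i`, so `i ∉ cut H P₁` and
`z i = y i = x i`. If `x i = y i = x₁ i` it is clear. (The exponents have absolute value at most two.) -/
def S_WHAT : Prop := ∀ (F : Type) [Field F] (V A : Type) [Fintype V] [DecidableEq V] [Fintype A] [DecidableEq A]
  (H : Finset (Finset V)) (t : Finset V → V → A → Fˣ), Generic H t → ∀ (y x₁ : V → A) (P₁ R₁ : Finset (Finset V)),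
  P₁ ⊆ H → R₁ ⊆ H → ∃ z : V → A, ∀ (x : V → A) (P R : Finset (Finset V)), P ⊆ H → R ⊆ H →
    wts t x P * wts t y R₁ = wts t x₁ P₁ * wts t y R → ∀ i ∈ cut H P, x i = z i

/-- COMB. Sets of scopes of the complete `k`-uniform hypergraph. `w` is a lower bound for the number of scopes in `P` and
for the number of scopes not in `P`; then few variables are outside `cut H P`. Proof. Let `D` be the complement of
`cut H P`. If `D = ∅` it is clear. Each `i ∈ D` is full (all scopes containing `i` are in `P`) or empty (none is). Two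
elements of `D` are in a common scope, so all are full or all are empty. So all scopes not in `P`, or all in `P`, are
contained in `Dᶜ`, and `w ≤ (n - |D|).choose k`. Finally `(n - d).choose k * n ^ 2 ≤ n.choose k * (n - d) ^ 2` for
`2 ≤ k` (e.g. induction on `k` from `(m + 1) * (m.choose k) = ...`, or `descFactorial`). -/
def S_COMB : Prop := ∀ (V : Type) [Fintype V] [DecidableEq V] (k : ℕ), 2 ≤ k → k ≤ Fintype.card V →
  ∀ (P : Finset (Finset V)) (w : ℕ), P ⊆ scopes V k → w ≤ P.card → w + P.card ≤ (scopes V k).card →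
  w * Fintype.card V ^ 2 ≤ (scopes V k).card * (cut (scopes V k) P).card ^ 2

/-- COMB2. If all scopes which contain an element of `D` are in `P` then few scopes are outside `P`; if no scope which
contains an element of `D` is in `P` then few scopes are in `P`. (Same proof.) -/
def S_COMB2 : Prop := ∀ (V : Type) [Fintype V] [DecidableEq V] (k : ℕ), 2 ≤ k →
  ∀ (P : Finset (Finset V)) (D : Finset V), P ⊆ scopes V k →
  ((∀ i ∈ D, ∀ K ∈ scopes V k, i ∈ K → K ∈ P) → ((scopes V k).card - P.card) * Fintype.card V ^ 2 ≤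
    (scopes V k).card * (Fintype.card V - D.card) ^ 2) ∧
  ((∀ i ∈ D, ∀ K ∈ P, i ∉ K) → P.card * Fintype.card V ^ 2 ≤ (scopes V k).card * (Fintype.card V - D.card) ^ 2)

/-- BALL. Hamming balls of radius `3 n / 10`. Proof. With `q = |A| ≥ 2`: the number of `x` which differ from `z` in
exactly `j` places is `n.choose j * (q - 1) ^ j`, so `2 ^ n * card ≤ 2 ^ f * ∑_j n.choose j * 2 ^ (n - j) * (q - 1) ^ j =
2 ^ f * (q + 1) ^ n` for `f = 3 n / 10` (sum over `x` of `2 ^ (n - dist)`, `Finset.prod_univ_sum`); then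
`(q + 1) ^ 10 * 2 ^ 3 * 2 ≤ q ^ 10 * 2 ^ 10` as `2 (q + 1) ≤ 3 q` and `3 ^ 10 * 16 ≤ 2 ^ 20`. -/
def S_BALL : Prop := ∀ (V A : Type) [Fintype V] [DecidableEq V] [Fintype A] [DecidableEq A], 2 ≤ Fintype.card A →
  ∀ z : V → A, ((univ.filter fun x : V → A => 10 * (univ.filter fun i => x i ≠ z i).card ≤ 3 * Fintype.card V).card) ^ 10
    * 2 ^ Fintype.card V ≤ (Fintype.card A ^ Fintype.card V) ^ 10

/-- UPG. Upper bound: a circuit of quadratic gates (the partial products of the monomials, in the order of an enumeration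
of `H`; then the sum is in `Earlier`), each gate is a monomial, so an eigenvector of every substitution `x ↦ c x`. -/
def S_UPG : Prop := ∀ (F : Type) [Field F] (V A : Type) [Fintype V] [DecidableEq V] [Fintype A] [DecidableEq A]
  (H : Finset (Finset V)), ∃ (G : ℕ) (p : ℕ → MvPolynomial (V → Option A) F),
  G ≤ H.card * Fintype.card A ^ Fintype.card V ∧
  (∀ c : (V → Option A) → F, EC.Circuit c G p fun _ => 0) ∧ Z F A H ∈ EC.Earlier p G

end Pool.Agent.Helper1x.EG
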