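import Pool.Agent.Helper1x.EC.Gates

/-!
# The parts of multilinear monomials in the gates of a circuit
-/

set_option autoImplicit false

namespace Pool.Agent.Helper1x.EG

open Finset Matrix Pool.Agent.Helper1x.EP Pool.Agent.Helper1x.EC

section mono

variable {τ X : Type*}

/-- the monomial of the variables `v t`, `t ∈ A` -/
noncomputable def vm (v : τ → X) (A : Finset τ) : X →₀ ℕ := ∑ t ∈ A, Finsupp.single (v t) 1

theorem vm_val {v : τ → X} (hv : Function.Injective v) (A : Finset τ) [DecidableEq τ] (t : τ) :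
    vm v A (v t) = if t ∈ A then 1 else 0 := by
  classical
  rw [vm, Finsupp.finsetSum_apply]
  split_ifs with h
  · rw [Finset.sum_eq_single t]
    · rw [Finsupp.single_apply, if_pos rfl]
    · intro t' _ hne
      rw [Finsupp.single_apply, if_neg fun h1 => hne (hv h1)]
    · intro h1
      exact absurd h h1
  · refine Finset.sum_eq_zero fun t' ht' => ?_
    rw [Finsupp.single_apply, if_neg]
    intro h1
    rw [hv h1] at ht'
    exact h ht'

theorem vm_out {v : τ → X} (A : Finset τ) {x : X} (hx : ∀ t, v t ≠ x) : vm v A x = 0 := by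
  classical
  rw [vm, Finsupp.finsetSum_apply]
  refine Finset.sum_eq_zero fun t _ => ?_
  rw [Finsupp.single_apply, if_neg (hx t)]

theorem vm_degree (v : τ → X) (A : Finset τ) : (vm v A).degree = A.card := by
  rw [vm, map_sum, Finset.sum_congr rfl fun i _ => Finsupp.degree_single _ _, Finset.sum_const, smul_eq_mul, mul_one]

/-- A decomposition of the monomial comes from a distribution of its variables. -/
theorem vsplit {ι : Type*} [Fintype ι] [DecidableEq ι] [DecidableEq τ] {v : τ → X} (hv : Function.Injective v)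
    (A : Finset τ) (hA : A.Nonempty) (d : ι → X →₀ ℕ) (hd : ∑ j, d j = vm v A) :
    ∃ g : τ → ι, ∀ j, d j = vm v (A.filter fun t => g t = j) := by
  classical
  have hsum : ∀ x, ∑ j, d j x = vm v A x := by
    intro x
    rw [← hd, Finsupp.finsetSum_apply]
  have hex0 : ∀ t ∈ A, ∃ j, d j (v t) ≠ 0 := by
    intro t ht
    have h3 := hsum (v t)
    rw [vm_val hv, if_pos ht] at h3
    obtain ⟨j, _, hj⟩ := Finset.exists_ne_zero_of_sum_ne_zero (h3.symm ▸ one_ne_zero : ∑ j, d j (v t) ≠ 0)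
    exact ⟨j, hj⟩
  have hex : ∀ t, ∃ j, t ∈ A → d j (v t) ≠ 0 := by
    intro t
    by_cases ht : t ∈ A
    · obtain ⟨j, hj⟩ := hex0 t ht
      exact ⟨j, fun _ => hj⟩
    · obtain ⟨t0, ht0⟩ := hA
      obtain ⟨j, _⟩ := hex0 t0 ht0
      exact ⟨j, fun h => absurd h ht⟩
  choose g hg using hex
  refine ⟨g, fun j => ?_⟩
  ext x
  have h3 := hsum x
  by_cases hx : ∃ t, v t = x
  · obtain ⟨t, rfl⟩ := hx
    rw [vm_val hv]
    rw [vm_val hv] at h3
    by_cases h4 : t ∈ A
    · rw [if_pos h4] at h3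
      have h6 : d (g t) (v t) + ∑ w ∈ univ.erase (g t), d w (v t) = 1 := by
        rw [Finset.add_sum_erase univ (fun w => d w (v t)) (mem_univ _), h3]
      have h5 := hg t h4
      by_cases h7 : g t = j
      · rw [if_pos (mem_filter.2 ⟨h4, h7⟩), ← h7]
        omega
      · have h9 : ¬ t ∈ A.filter fun t => g t = j := fun h8 => h7 (mem_filter.1 h8).2
        rw [if_neg h9]
        have h8 : ∑ w ∈ univ.erase (g t), d w (v t) = 0 := by omega
        exact (Finset.sum_eq_zero_iff.1 h8) j (mem_erase.2 ⟨Ne.symm h7, mem_univ _⟩)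
    · rw [if_neg h4] at h3
      have h9 : ¬ t ∈ A.filter fun t => g t = j := fun h8 => h4 (mem_filter.1 h8).1
      rw [if_neg h9]
      exact (Finset.sum_eq_zero_iff.1 h3) j (mem_univ _)
  · push Not at hx
    rw [vm_out _ hx]
    rw [vm_out _ hx] at h3
    exact (Finset.sum_eq_zero_iff.1 h3) j (mem_univ _)

theorem vsplit2 [DecidableEq τ] {v : τ → X} (hv : Function.Injective v) {A : Finset τ} {m1 m2 : X →₀ ℕ}
    (h : m1 + m2 = vm v A) : ∃ A1 A2 : Finset τ, A1 ∪ A2 = A ∧ m1 = vm v A1 ∧ m2 = vm v A2 := by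
  classical
  rcases A.eq_empty_or_nonempty with rfl | hA
  · have h0 : m1 + m2 = 0 := by rw [h, vm, Finset.sum_empty]
    have h1 : m1 = 0 ∧ m2 = 0 := add_eq_zero.1 h0
    refine ⟨∅, ∅, Finset.union_empty _, ?_, ?_⟩
    · rw [h1.1, vm, Finset.sum_empty]
    · rw [h1.2, vm, Finset.sum_empty]
  · obtain ⟨g, hg⟩ := vsplit hv A hA (fun b : Bool => if b then m1 else m2) (by
      rw [Fintype.sum_bool]
      simpa using h)
    refine ⟨A.filter fun i => g i = true, A.filter fun i => g i = false, ?_, ?_, ?_⟩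
    · ext i
      rw [mem_union, mem_filter, mem_filter]
      constructor
      · rintro (h1 | h1)
        · exact h1.1
        · exact h1.1
      · intro h1
        cases hgi : g i
        · exact Or.inr ⟨h1, rfl⟩
        · exact Or.inl ⟨h1, rfl⟩
    · simpa using hg true
    · simpa using hg false

end mono

section parts

variable {Ω τ X : Type*} {K : Type*} [Field K]

/-- a part of a configuration which is an affine form or occurs in an earlier gate -/
def Part (Q : ℕ → Ω → Finset τ → Prop) (k : ℕ) (x : Ω) (A : Finset τ) : Prop := A.card ≤ 1 ∨ ∃ j < k, Q j x A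

/-- the weight of a part -/
def wt {H : Type*} [CommGroup H] (w : Ω → τ → H) (x : Ω) (A : Finset τ) : H := ∏ t ∈ A, w x t

/-- a part of a configuration occurs in a gate -/
def Occ (E : Finset τ) (v : Ω → τ → X) (p : ℕ → MvPolynomial X K) (k : ℕ) (x : Ω) (A : Finset τ) : Prop :=
  A ⊆ E ∧ MvPolynomial.coeff (vm (v x) A) (p k) ≠ 0

theorem part_of_earlier {E : Finset τ} {v : Ω → τ → X} {p : ℕ → MvPolynomial X K} {k : ℕ} {f : MvPolynomial X K}
    (hf : f ∈ Earlier p k) {x : Ω} {A : Finset τ} (hAE : A ⊆ E) (h : MvPolynomial.coeff (vm (v x) A) f ≠ 0) :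
    Part (Occ E v p) k x A := by
  classical
  by_contra hcon
  unfold Part at hcon
  push Not at hcon
  obtain ⟨h1, h2⟩ := hcon
  apply h
  have h3 : Earlier p k ≤ LinearMap.ker (MvPolynomial.lcoeff K (vm (v x) A)) := by
    refine Submodule.span_le.2 ?_
    rintro y ((rfl | ⟨y, rfl⟩) | ⟨j, hj, rfl⟩)
    · change MvPolynomial.coeff (vm (v x) A) 1 = 0
      rw [MvPolynomial.coeff_one, if_neg]
      intro h4
      have h5 := vm_degree (v x) A
      rw [← h4, map_zero] at h5
      omega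
    · change MvPolynomial.coeff (vm (v x) A) (MvPolynomial.X y) = 0
      rw [MvPolynomial.coeff_X, if_neg]
      intro h4
      have h5 := vm_degree (v x) A
      rw [← h4, Finsupp.degree_single] at h5
      omega
    · change MvPolynomial.coeff (vm (v x) A) (p j) = 0
      by_contra h4
      exact h2 j hj ⟨hAE, h4⟩
  exact h3 hf

theorem quadratic_parts [DecidableEq τ] {E : Finset τ} {v : Ω → τ → X} (hv : ∀ x, Function.Injective (v x))
    {p : ℕ → MvPolynomial X K} {k : ℕ} (h : Quadratic p k) {x : Ω} {A : Finset τ} (hA : Occ E v p k x A) :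
    ∃ A1 A2, A1 ∪ A2 = A ∧ Part (Occ E v p) k x A1 ∧ Part (Occ E v p) k x A2 := by
  obtain ⟨m1, m2, h1, ⟨f1, hf1, h2⟩, f2, hf2, h3⟩ := coeff_mul_ne h hA.2
  obtain ⟨A1, A2, h4, rfl, rfl⟩ := vsplit2 (hv x) h1
  refine ⟨A1, A2, h4, part_of_earlier hf1 (Finset.Subset.trans ?_ hA.1) h2,
    part_of_earlier hf2 (Finset.Subset.trans ?_ hA.1) h3⟩
  · rw [← h4]
    exact Finset.subset_union_left
  · rw [← h4]
    exact Finset.subset_union_right

theorem mwt_vm (c : X → Kˣ) (v : Ω → τ → X) (x : Ω) (A : Finset τ) :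
    mwt c (vm (v x) A) = wt (fun x t => c (v x t)) x A := by
  classical
  have h1 : ∀ y : X, mwt c (Finsupp.single y 1) = c y := by
    intro y
    unfold mwt
    rw [Finsupp.prod_single_index (h := fun x k => c x ^ k) (pow_zero _), pow_one]
  rw [mwt, vm, ← Finsupp.prod_finsetSum_index (h := fun x k => c x ^ k)
    (fun x => pow_zero _) (fun x a b => pow_add _ _ _)]
  exact Finset.prod_congr rfl fun t _ => h1 (v x t)

theorem coeff_scale_c (c : X → Kˣ) (f : MvPolynomial X K) (m : X →₀ ℕ) :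
    MvPolynomial.coeff m (scale (fun x => (c x : K)) f) = ((mwt c m : Kˣ) : K) * MvPolynomial.coeff m f := by
  rw [mwt_val]
  exact Pool.Agent.Helper1x.EQ.coeff_scale _ f m

theorem vleib {ι : Type*} [Fintype ι] [DecidableEq ι] [DecidableEq τ] {v : τ → X} (hv : Function.Injective v)
    {A : Finset τ} (hA : A.Nonempty) {F : ι → MvPolynomial X K} (h : MvPolynomial.coeff (vm v A) (∏ j, F j) ≠ 0) :
    ∃ g : τ → ι, ∀ j, MvPolynomial.coeff (vm v (A.filter fun t => g t = j)) (F j) ≠ 0 := by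
  obtain ⟨d, hd1, hd2⟩ := coeff_prod_ne univ _ _ h
  obtain ⟨g, hg⟩ := vsplit hv A hA d hd1
  exact ⟨g, fun j => hg j ▸ hd2 j (mem_univ j)⟩

/-- what the descent needs about a gate -/
def Str {H : Type*} [CommGroup H] [DecidableEq τ] (w : Ω → τ → H) (Q : ℕ → Ω → Finset τ → Prop) (k : ℕ) {m : ℕ}
    (b μ : Fin m → H) : Prop :=
  (∀ z z', b z ≠ μ z → b z' ≠ μ z' → b z' ≠ μ z) ∧ ∀ x A, Q k x A →
    (∃ A1 A2, A1 ∪ A2 = A ∧ Part Q k x A1 ∧ Part Q k x A2) ∨
    (∃ (ψ : Equiv.Perm (Fin m)) (g : τ → Fin m),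
      (∀ j, b (ψ j) * wt w x (A.filter fun t => g t = j) = μ j) ∧
      ∀ j, Part Q k x (A.filter fun t => g t = j))

theorem wt_map {H H' : Type*} [CommGroup H] [CommGroup H'] (φ : H →* H') (w : Ω → τ → H) (x : Ω) (A : Finset τ) :
    wt (fun x t => φ (w x t)) x A = φ (wt w x A) := by
  unfold wt
  rw [map_prod]

theorem part_small [DecidableEq τ] {Q : ℕ → Ω → Finset τ → Prop} {k : ℕ} {x : Ω} :
    ∃ A1 A2 : Finset τ, A1 ∪ A2 = ∅ ∧ Part Q k x A1 ∧ Part Q k x A2 := by
  refine ⟨∅, ∅, Finset.union_empty _, Or.inl ?_, Or.inl ?_⟩ <;> rw [Finset.card_empty] <;> exact Nat.zero_le _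

variable {L : Type*} [Field L] [Algebra K L] [DecidableEq τ] {E : Finset τ} {v : Ω → τ → X} {c : X → Kˣ}

theorem det_str [IsAlgClosed L] (hv : ∀ x, Function.Injective (v x)) {p : ℕ → MvPolynomial X K} {k m : ℕ}
    (h : DetGate (fun x => (c x : K)) p k m) : ∃ b μ : Fin m → Lˣ,
      Str (fun x t => ju K L (c (v x t))) (Occ E v p) k b μ := by
  classical
  obtain ⟨M, B, C, hM, hB, hC, hBC, hp⟩ := h
  set φ := algebraMap K L with hφ
  set ML : Matrix (Fin m) (Fin m) (MvPolynomial X L) := M.map (MvPolynomial.map φ) with hML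
  have hdet : ∀ R : Matrix (Fin m) (Fin m) K, IsUnit R.det → IsUnit (R.map φ).det := by
    intro R hR
    rw [← RingHom.mapMatrix_apply, ← RingHom.map_det]
    exact hR.map φ
  have hmapC : ∀ R : Matrix (Fin m) (Fin m) K, (R.map MvPolynomial.C).map (MvPolynomial.map φ) =
      ((R.map φ).map MvPolynomial.C : Matrix (Fin m) (Fin m) (MvPolynomial X L)) := by
    intro R
    ext1 i j
    simp only [Matrix.map_apply]
    exact MvPolynomial.map_C φ _
  have hBC' : ML.map (Pool.Agent.Helper1x.EQ.scale fun x => ((ju K L (c x) : Lˣ) : L)) =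
      (B.map φ).map MvPolynomial.C * ML * (C.map φ).map MvPolynomial.C := by
    have h1 : ML.map (Pool.Agent.Helper1x.EQ.scale fun x => ((ju K L (c x) : Lˣ) : L)) =
        (M.map (scale fun x => (c x : K))).map (MvPolynomial.map φ) := by
      ext1 i j
      simp only [hML, Matrix.map_apply]
      exact scale_map φ _ _
    rw [h1, hBC, Matrix.map_mul, Matrix.map_mul, hmapC, hmapC]
  obtain ⟨P, Q, ν, μ, hP, hQ, hPQ⟩ := graded_form (hdet B hB) (hdet C hC) hBC'
  obtain ⟨β, hβ⟩ := exists_beta ν μ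
  refine ⟨fun u => ν (β u), μ, fun z z' => hβ z z', fun x A hA => ?_⟩
  rcases A.eq_empty_or_nonempty with rfl | hne
  · exact Or.inl part_small
  right
  set N1 : Matrix (Fin m) (Fin m) (MvPolynomial X L) := P.map MvPolynomial.C * ML * Q.map MvPolynomial.C with hN1
  have hε : ((Equiv.Perm.sign β : ℤ) : L) ≠ 0 := by
    rcases Int.units_eq_one_or (Equiv.Perm.sign β) with h | h <;> rw [h] <;> simp
  have hN : MvPolynomial.coeff (vm (v x) A) (N1.submatrix β id).det ≠ 0 := by
    rw [Matrix.det_permute, hN1, Pool.Agent.Helper1x.EP.det_conj, hML, Pool.Agent.Helper1x.EP.det_map, ← hp]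
    have h1 : ((Equiv.Perm.sign β : ℤ) : MvPolynomial X L) * (MvPolynomial.C P.det * MvPolynomial.map φ (p k) *
        MvPolynomial.C Q.det) = MvPolynomial.C (((Equiv.Perm.sign β : ℤ) : L) * P.det * Q.det) *
        MvPolynomial.map φ (p k) := by
      rw [map_mul, map_mul, map_intCast]
      ring
    rw [h1, MvPolynomial.coeff_C_mul, MvPolynomial.coeff_map]
    refine mul_ne_zero (mul_ne_zero (mul_ne_zero hε hP.ne_zero) hQ.ne_zero) ?_
    rw [Ne, map_eq_zero]
    exact hA.2
  obtain ⟨ψ, hψ⟩ := det_term hN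
  obtain ⟨g, hg⟩ := vleib (hv x) hne hψ
  refine ⟨ψ, g, fun j => ?_, fun j => ?_⟩
  · have h1 := hPQ _ _ _ (hg j)
    rw [mwt_vm] at h1
    exact h1
  · have h1 := hg j
    rw [Matrix.submatrix_apply, hN1, coeff_conj, Matrix.mul_apply] at h1
    obtain ⟨j', _, hj⟩ := Finset.exists_ne_zero_of_sum_ne_zero h1
    have h2 := left_ne_zero_of_mul hj
    rw [Matrix.mul_apply] at h2
    obtain ⟨i, _, hi⟩ := Finset.exists_ne_zero_of_sum_ne_zero h2
    have h3 := right_ne_zero_of_mul hi
    rw [hML, Matrix.map_apply, Matrix.map_apply, MvPolynomial.coeff_map] at h3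
    exact part_of_earlier (hM i j') ((Finset.filter_subset _ _).trans hA.1) fun h0 => h3 (by rw [h0, map_zero])

theorem matfun_str (hv : ∀ x, Function.Injective (v x)) {p : ℕ → MvPolynomial X K} {k m : ℕ}
    (h : MatrixFunctionGate (fun x => (c x : K)) p k m) : ∃ b μ : Fin m → Lˣ,
      Str (fun x t => ju K L (c (v x t))) (Occ E v p) k b μ := by
  classical
  obtain ⟨M, b, μ, χ, hM, hgr, hp⟩ := h
  obtain ⟨β, hβ⟩ := exists_beta (fun u => (ju K L (b u))⁻¹) (fun v => ju K L (μ v))
  refine ⟨fun u => (ju K L (b (β u)))⁻¹, fun v => ju K L (μ v), fun z z' => hβ z z', fun x A hA => ?_⟩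
  rcases A.eq_empty_or_nonempty with rfl | hne
  · exact Or.inl part_small
  right
  have h1 : MvPolynomial.coeff (vm (v x) A) (p k) ≠ 0 := hA.2
  rw [hp, MvPolynomial.coeff_sum] at h1
  obtain ⟨π, _, hπ⟩ := Finset.exists_ne_zero_of_sum_ne_zero h1
  rw [MvPolynomial.coeff_C_mul] at hπ
  obtain ⟨g, hg⟩ := vleib (hv x) hne (right_ne_zero_of_mul hπ)
  refine ⟨β⁻¹ * π, g, fun j => ?_, fun j => part_of_earlier (hM _ _) ((Finset.filter_subset _ _).trans hA.1) (hg j)⟩
  have h2 : wt (fun x t => c (v x t)) x (A.filter fun t => g t = j) = b (π j) * μ j := by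
    rw [← mwt_vm]
    have h3 := congrArg (MvPolynomial.coeff (vm (v x) (A.filter fun t => g t = j))) (hgr (π j) j)
    rw [coeff_scale_c, MvPolynomial.coeff_C_mul] at h3
    exact Units.ext (mul_right_cancel₀ (hg j) h3)
  have h3 : β ((β⁻¹ * π) j) = π j := by
    rw [← Equiv.Perm.mul_apply, ← mul_assoc, mul_inv_cancel, one_mul]
  simp only [h3]
  rw [wt_map, h2, map_mul, inv_mul_cancel_left]

theorem circuit_str [IsAlgClosed L] (hv : ∀ x, Function.Injective (v x)) {G : ℕ}
    {p : ℕ → MvPolynomial X K} {m : ℕ → ℕ} (hc : Circuit (fun x => (c x : K)) G p m) (k : ℕ) :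
    ∃ (l : Lˣ) (b μ : Fin (m k) → Lˣ), k < G →
      (∀ x A, Occ E v p k x A → wt (fun x t => ju K L (c (v x t))) x A = l) ∧
      Str (fun x t => ju K L (c (v x t))) (Occ E v p) k b μ := by
  classical
  by_cases hk : k < G
  · obtain ⟨⟨a, ha⟩, hgate⟩ := hc k hk
    have hlab : ∃ l : Lˣ, ∀ x A, Occ E v p k x A → wt (fun x t => ju K L (c (v x t))) x A = l := by
      by_cases hex : ∃ x A, Occ E v p k x A
      · obtain ⟨x0, A0, h0⟩ := hex
        have hval : ∀ x A, Occ E v p k x A → ((wt (fun x t => c (v x t)) x A : Kˣ) : K) = a := by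
          intro x A hA
          have h3 := congrArg (MvPolynomial.coeff (vm (v x) A)) ha
          rw [coeff_scale_c, MvPolynomial.coeff_C_mul, mwt_vm] at h3
          exact mul_right_cancel₀ hA.2 h3
        refine ⟨ju K L (wt (fun x t => c (v x t)) x0 A0), fun x A hA => ?_⟩
        rw [wt_map, Units.ext ((hval x A hA).trans (hval x0 A0 h0).symm)]
      · exact ⟨1, fun x A hA => absurd ⟨x, A, hA⟩ hex⟩
    obtain ⟨l, hl⟩ := hlab
    have hstr : ∃ b μ : Fin (m k) → Lˣ, Str (fun x t => ju K L (c (v x t))) (Occ E v p) k b μ := by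
      rcases hgate with h | h | h
      · exact ⟨fun _ => 1, fun _ => 1, fun z z' h1 => absurd rfl h1, fun x A hA => Or.inl (quadratic_parts hv h hA)⟩
      · exact det_str hv h
      · exact matfun_str hv h
    obtain ⟨b, μ, h⟩ := hstr
    exact ⟨l, b, μ, fun _ => ⟨hl, h⟩⟩
  · exact ⟨1, fun _ => 1, fun _ => 1, fun h => absurd h hk⟩

end parts

end Pool.Agent.Helper1x.EG
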