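import Pool.Agent.Helper1x.EG.Cut
import Pool.Agent.Helper1x.EG.Gates

/-!
# The descent and the orbits
-/

set_option autoImplicit false

namespace Pool.Agent.Helper1x.EG

open Finset Pool.Agent.Helper1x.EP

section

variable {Ω τ H : Type*} [DecidableEq τ] [CommGroup H]

/-- the walks between the unmatched labels of a gate -/
def Walks {ι : Type} (w : Ω → τ → H) (a : ℕ) (b μ : ι → H) (Z : Finset ι) (x : Ω) (A : Finset τ) (r : ι → ι)
    (D : ι → Finset τ) : Prop :=
  (∀ z ∈ Z, r z ∈ Z) ∧ (∀ z ∈ Z, ∀ z' ∈ Z, r z = r z' → z = z') ∧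
    (∀ z ∈ Z, (D z).Nonempty) ∧ (∀ z ∈ Z, μ z = b (r z) * wt w x (D z)) ∧
    (∀ z ∈ Z, ∀ z' ∈ Z, z ≠ z' → Disjoint (D z) (D z')) ∧ (∀ z ∈ Z, D z ⊆ A) ∧ (∀ z ∈ Z, (D z).card < a) ∧
    ∀ t ∈ A, ∃ z ∈ Z, t ∈ D z

open Classical in
/-- the labels of the cuts -/
noncomputable def labels (G : ℕ) (m : ℕ → ℕ) (l : ℕ → H) (b μ : ∀ k, Fin (m k) → H) : Finset H :=
  (range G).image l ∪
    ((range G).biUnion fun k => (univ : Finset (Fin (m k) × Fin (m k))).image fun y => (b k y.2)⁻¹ * μ k y.1)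

omit [DecidableEq τ] in
theorem card_labels (G : ℕ) (m : ℕ → ℕ) (l : ℕ → H) (b μ : ∀ k, Fin (m k) → H) :
    (labels G m l b μ).card ≤ G + ∑ k ∈ range G, m k * m k := by
  classical
  unfold labels
  refine (Finset.card_union_le _ _).trans (Nat.add_le_add ?_ ?_)
  · refine Finset.card_image_le.trans ?_
    rw [card_range]
  · refine Finset.card_biUnion_le.trans (Finset.sum_le_sum fun k _ => Finset.card_image_le.trans ?_)
    rw [Finset.card_univ, Fintype.card_prod, Fintype.card_fin]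

/-- The descent: a large part of a configuration in a gate has a cut in the window, or walks at an earlier gate. -/
theorem descent {w : Ω → τ → H} {E : Finset τ} (hunit : ∀ x, ∀ A ⊆ E, wt w x A = 1 → A = ∅ ∨ A = E) {G : ℕ}
    {m : ℕ → ℕ} {l : ℕ → H} {b μ : ∀ k, Fin (m k) → H} {Z : ∀ k, Finset (Fin (m k))} {a : ℕ} (ha : 2 ≤ a)
    (han : 3 * a ≤ E.card) {Q : ℕ → Ω → Finset τ → Prop} (hQE : ∀ k x A, Q k x A → A ⊆ E)
    (hlab : ∀ k < G, ∀ x A, Q k x A → wt w x A = l k)
    (hβ : ∀ k < G, ∀ z ∈ Z k, ∀ z' ∈ Z k, b k z' ≠ μ k z) (h2 : ∀ k < G, ∀ v, v ∉ Z k → b k v = μ k v)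
    (hstep : ∀ k < G, ∀ x A, Q k x A →
      (∃ A1 A2, A1 ∪ A2 = A ∧ Part Q k x A1 ∧ Part Q k x A2) ∨
      (∃ (ψ : Equiv.Perm (Fin (m k))) (g : τ → Fin (m k)),
        (∀ v, b k (ψ v) * wt w x (A.filter fun i => g i = v) = μ k v) ∧
        ∀ v, Part Q k x (A.filter fun i => g i = v))) :
    ∀ k < G, ∀ x A, Q k x A → E.card - a < A.card →
      (∃ A' ⊆ E, a ≤ A'.card ∧ A'.card ≤ E.card - a ∧ wt w x A' ∈ labels G m l b μ) ∨
      ∃ k < G, ∃ A r D, Q k x A ∧ E.card - a < A.card ∧ Walks w a (b k) (μ k) (Z k) x A r D := by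
  classical
  intro k
  induction k using Nat.strong_induction_on with
  | _ k ih =>
    intro hk x A hQ hA
    have hAE := hQE k x A hQ
    have hAn : A.card ≤ E.card := Finset.card_le_card hAE
    -- a part with at least `a` elements
    have hpart : ∀ A1, Part Q k x A1 → a ≤ A1.card →
        (∃ A' ⊆ E, a ≤ A'.card ∧ A'.card ≤ E.card - a ∧ wt w x A' ∈ labels G m l b μ) ∨
        ∃ k < G, ∃ A r D, Q k x A ∧ E.card - a < A.card ∧ Walks w a (b k) (μ k) (Z k) x A r D := by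
      intro A1 hA1 ha1
      rcases hA1 with h3 | ⟨j, hj, hQj⟩
      · omega
      · rcases Nat.lt_or_ge (E.card - a) A1.card with h4 | h4
        · exact ih j hj (hj.trans hk) x A1 hQj h4
        · left
          refine ⟨A1, hQE j x A1 hQj, ha1, h4, ?_⟩
          rw [hlab j (hj.trans hk) x A1 hQj]
          unfold labels
          rw [mem_union]
          exact Or.inl (mem_image.2 ⟨j, mem_range.2 (hj.trans hk), rfl⟩)
    rcases hstep k hk x A hQ with ⟨A1, A2, h3, h4, h5⟩ | ⟨ψ, g, h3, h4⟩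
    · have h6 := Finset.card_union_le A1 A2
      rw [h3] at h6
      rcases Nat.lt_or_ge A1.card a with h7 | h7
      · exact hpart A2 h5 (by omega)
      · exact hpart A1 h4 h7
    · by_cases hbig : ∃ v, a ≤ (A.filter fun i => g i = v).card
      · obtain ⟨v, hv⟩ := hbig
        exact hpart _ (h4 v) hv
      · push Not at hbig
        rcases cut (Z := Z k) (b := b k) (μ := μ k) (ψ := ψ) (g := g) (u := w x) (A := A)
          (w := fun v => wt w x (A.filter fun i => g i = v)) (a := a) (by omega) (by omega) (hβ k hk) h3 (h2 k hk)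
          (fun v => rfl) (fun A' hA' hA1 => by
            rcases hunit x A' (hA'.trans hAE) hA1 with h | h
            · exact Or.inl h
            · right
              exact Finset.Subset.antisymm hA' (h ▸ hAE)) hbig with
          ⟨y, v, A', h5, h6, h7, h8⟩ | ⟨r, D, hr1, hr2, hD1, hD2, hD3, hD4, hD5, hD6⟩
        · left
          refine ⟨A', h5.trans hAE, h6, by omega, ?_⟩
          unfold labels
          rw [mem_union]
          refine Or.inr (mem_biUnion.2 ⟨k, mem_range.2 hk, mem_image.2 ⟨(y, v), mem_univ _, ?_⟩⟩)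
          simp only
          rw [h8, inv_mul_cancel_left]
          rfl
        · right
          exact ⟨k, hk, A, r, D, hQ, hA, hr1, hr2, hD1, hD2, hD3, hD4, hD5, fun t ht => mem_biUnion.1 (hD6 ht)⟩

/-- Two systems of walks at the same gate: the orbit of a label and its window. -/
theorem relative {ι : Type} [DecidableEq ι] {w : Ω → τ → H} {a : ℕ} {b μ : ι → H} {Z : Finset ι} {x y : Ω}
    {A A' : Finset τ} {r r' : ι → ι} {D D' : ι → Finset τ} (hx : Walks w a b μ Z x A r D)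
    (hy : Walks w a b μ Z y A' r' D') {z0 : ι} (hz0 : z0 ∈ Z) {w0 : ℕ} :
    ∃ W W' : Finset τ, D z0 ⊆ W ∧ W ⊆ A ∧ W' ⊆ A' ∧ W'.Nonempty ∧ wt w y W' = wt w x W ∧
      (0 < w0 → w0 ≤ W.card → ∃ v ∈ Z, ∃ v' ∈ Z, ∃ P ⊆ A, ∃ P' ⊆ A', w0 ≤ P.card ∧ P.card < w0 + a ∧
        b v * wt w y P' = b v' * wt w x P) := by
  classical
  obtain ⟨hr1, hr2, hD1, hD2, hD3, hD4, hD5, _⟩ := hx
  obtain ⟨hr1', hr2', hD1', hD2', hD3', hD4', _, _⟩ := hy
  set ρ : Equiv.Perm {z // z ∈ Z} := Equiv.ofBijective (fun z => ⟨r z.1, hr1 z.1 z.2⟩)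
    (Finite.injective_iff_bijective.1 fun z z' h => Subtype.ext (hr2 _ z.2 _ z'.2 (congrArg Subtype.val h))) with hρ
  set ρ' : Equiv.Perm {z // z ∈ Z} := Equiv.ofBijective (fun z => ⟨r' z.1, hr1' z.1 z.2⟩)
    (Finite.injective_iff_bijective.1 fun z z' h => Subtype.ext (hr2' _ z.2 _ z'.2 (congrArg Subtype.val h))) with hρ'
  set π : Equiv.Perm {z // z ∈ Z} := ρ⁻¹ * ρ' with hπ
  have hρv : ∀ z, (ρ z).1 = r z.1 := fun z => rfl
  have hρv' : ∀ z, (ρ' z).1 = r' z.1 := fun z => rfl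
  have hπv : ∀ z, r (π z).1 = r' z.1 := by
    intro z
    rw [← hρv, ← hρv', hπ, ← Equiv.Perm.mul_apply, ← mul_assoc, mul_inv_cancel, one_mul]
  have hkey : ∀ z : {z // z ∈ Z}, b (r z.1) * wt w x (D z.1) = b (r (π z).1) * wt w y (D' z.1) := by
    intro z
    rw [hπv, ← hD2 z.1 z.2, ← hD2' z.1 z.2]
  set s0 : {z // z ∈ Z} := ⟨z0, hz0⟩ with hs0
  obtain ⟨Tf, hpos, hmem, hT⟩ := exists_rets π ({s0} : Finset {z // z ∈ Z})
  have hs00 : s0 ∈ ({s0} : Finset {z // z ∈ Z}) := Finset.mem_singleton_self _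
  set T := Tf s0 with hTdef
  have hTp : 0 < T := hpos _ hs00
  have hret : (π ^ T) s0 = s0 := Finset.mem_singleton.1 (hmem _ hs00)
  have hinj : ∀ i < T, ∀ j < T, (π ^ i) s0 = (π ^ j) s0 → i = j := fun i hi j hj h =>
    (seg_inj hT hs00 hs00 hi hj h).2
  set P : ℕ → Finset τ := fun J => (range J).biUnion fun j => D ((π ^ j) s0).1 with hP
  set P' : ℕ → Finset τ := fun J => (range J).biUnion fun j => D' ((π ^ j) s0).1 with hP'
  have hPs : ∀ J, P (J + 1) = P J ∪ D ((π ^ J) s0).1 := by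
    intro J
    ext t
    simp only [hP, mem_biUnion, mem_union, mem_range]
    constructor
    · rintro ⟨j, hj, h⟩
      rcases Nat.lt_or_ge j J with h1 | h1
      · exact Or.inl ⟨j, h1, h⟩
      · have h2 : j = J := by omega
        subst h2
        exact Or.inr h
    · rintro (⟨j, hj, h⟩ | h)
      · exact ⟨j, by omega, h⟩
      · exact ⟨J, by omega, h⟩
  have hPs' : ∀ J, P' (J + 1) = P' J ∪ D' ((π ^ J) s0).1 := by
    intro J
    ext t
    simp only [hP', mem_biUnion, mem_union, mem_range]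
    constructor
    · rintro ⟨j, hj, h⟩
      rcases Nat.lt_or_ge j J with h1 | h1
      · exact Or.inl ⟨j, h1, h⟩
      · have h2 : j = J := by omega
        subst h2
        exact Or.inr h
    · rintro (⟨j, hj, h⟩ | h)
      · exact ⟨j, by omega, h⟩
      · exact ⟨J, by omega, h⟩
  have hPA : ∀ J, P J ⊆ A := fun J => Finset.biUnion_subset.2 fun j _ => hD4 _ ((π ^ j) s0).2
  have hPA' : ∀ J, P' J ⊆ A' := fun J => Finset.biUnion_subset.2 fun j _ => hD4' _ ((π ^ j) s0).2
  have hdisj : ∀ J < T, Disjoint (P J) (D ((π ^ J) s0).1) := by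
    intro J hJ
    rw [Finset.disjoint_biUnion_left]
    intro j hj
    rw [mem_range] at hj
    refine hD3 _ ((π ^ j) s0).2 _ ((π ^ J) s0).2 fun h => ?_
    have := hinj j (hj.trans hJ) J hJ (Subtype.ext h)
    omega
  have hdisj' : ∀ J < T, Disjoint (P' J) (D' ((π ^ J) s0).1) := by
    intro J hJ
    rw [Finset.disjoint_biUnion_left]
    intro j hj
    rw [mem_range] at hj
    refine hD3' _ ((π ^ j) s0).2 _ ((π ^ J) s0).2 fun h => ?_
    have := hinj j (hj.trans hJ) J hJ (Subtype.ext h)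
    omega
  have hrel : ∀ J ≤ T, b (r ((π ^ J) s0).1) * wt w y (P' J) = b (r z0) * wt w x (P J) := by
    intro J
    induction J with
    | zero =>
      intro _
      have h1 : P 0 = ∅ := by simp [hP]
      have h2 : P' 0 = ∅ := by simp [hP']
      rw [h1, h2]
      simp [wt, hs0]
    | succ J ih =>
      intro hJ
      have hJ' : J < T := by omega
      have h1 : wt w x (P (J + 1)) = wt w x (P J) * wt w x (D ((π ^ J) s0).1) := by
        rw [hPs]
        exact Finset.prod_union (hdisj J hJ')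
      have h2 : wt w y (P' (J + 1)) = wt w y (P' J) * wt w y (D' ((π ^ J) s0).1) := by
        rw [hPs']
        exact Finset.prod_union (hdisj' J hJ')
      have h3 : (π ^ (J + 1)) s0 = π ((π ^ J) s0) := by
        rw [pow_succ', Equiv.Perm.mul_apply]
      have h4 := hkey ((π ^ J) s0)
      have h5 := ih (by omega)
      rw [h3, h1, h2]
      calc b (r (π ((π ^ J) s0)).1) * (wt w y (P' J) * wt w y (D' ((π ^ J) s0).1))
          = (b (r (π ((π ^ J) s0)).1) * wt w y (D' ((π ^ J) s0).1)) * wt w y (P' J) := by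
            rw [mul_comm (wt w y (P' J)), mul_assoc]
        _ = (b (r ((π ^ J) s0).1) * wt w x (D ((π ^ J) s0).1)) * wt w y (P' J) := by rw [h4]
        _ = (b (r ((π ^ J) s0).1) * wt w y (P' J)) * wt w x (D ((π ^ J) s0).1) := by
            rw [mul_assoc, mul_comm (wt w x _), ← mul_assoc]
        _ = b (r z0) * (wt w x (P J) * wt w x (D ((π ^ J) s0).1)) := by rw [h5, mul_assoc]
  refine ⟨P T, P' T, ?_, hPA T, hPA' T, ?_, ?_, ?_⟩
  · intro t ht
    exact mem_biUnion.2 ⟨0, mem_range.2 hTp, by simpa [hs0] using ht⟩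
  · obtain ⟨t, ht⟩ := hD1' z0 hz0
    exact ⟨t, mem_biUnion.2 ⟨0, mem_range.2 hTp, by simpa [hs0] using ht⟩⟩
  · have h1 := hrel T le_rfl
    rw [hret] at h1
    exact mul_left_cancel h1
  · intro hw0 hW
    have hP0 : (P 0).card = 0 := by simp [hP]
    have hex : ∃ J, w0 ≤ (P J).card := ⟨T, hW⟩
    obtain ⟨J, hJ⟩ : ∃ J, Nat.find hex = J + 1 := by
      refine Nat.exists_eq_succ_of_ne_zero fun h0 => ?_
      have h3 := Nat.find_spec hex
      rw [h0, hP0] at h3
      omega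
    have hJ1 : w0 ≤ (P (J + 1)).card := hJ ▸ Nat.find_spec hex
    have hJ2 : J + 1 ≤ T := hJ ▸ Nat.find_min' hex hW
    have hJ3 : (P J).card < w0 := by
      have h3 : ¬ w0 ≤ (P J).card := Nat.find_min hex (by omega)
      omega
    have hJ4 : (P (J + 1)).card < w0 + a := by
      rw [hPs]
      have h4 := Finset.card_union_le (P J) (D ((π ^ J) s0).1)
      have h5 := hD5 _ ((π ^ J) s0).2
      omega
    exact ⟨_, hr1 _ ((π ^ (J + 1)) s0).2, _, hr1 z0 hz0, P (J + 1), hPA _, P' (J + 1), hPA' _, hJ1, hJ4,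
      hrel (J + 1) hJ2⟩

end

end Pool.Agent.Helper1x.EG
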