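import Pool.Agent.Helper1x.EG.Def

/-!
# Piece UPG of project EG: the upper bound
-/

set_option autoImplicit false

namespace Pool.Agent.Helper1x.EG

open Finset MvPolynomial Pool.Agent.HS38.GT

/-- the product of the variables of the assignment `a` over the scopes in the list `l` -/
noncomputable def lpr {F V A : Type} [Field F] [DecidableEq V] (l : List (Finset V)) (a : V → A) :
    MvPolynomial (V → Option A) F := (l.map fun K => X (restr K a)).prod

theorem scale_lpr {F V A : Type} [Field F] [DecidableEq V] (c : (V → Option A) → F)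
    (l : List (Finset V)) (a : V → A) : ∃ r : F, EC.scale c (lpr l a) = C r * lpr l a := by
  induction l with
  | nil => exact ⟨1, by rw [lpr, List.map_nil, List.prod_nil, map_one, map_one, one_mul]⟩
  | cons K l ih =>
    obtain ⟨r, hr⟩ := ih
    refine ⟨c (restr K a) * r, ?_⟩
    have h1 : (lpr (K :: l) a : MvPolynomial (V → Option A) F) = X (restr K a) * lpr l a := by
      rw [lpr, List.map_cons, List.prod_cons]
      rfl
    rw [h1, map_mul, hr, EC.scale, aeval_X, map_mul]
    ring

theorem lpr_take {F V A : Type} [Field F] [DecidableEq V] {l : List (Finset V)} {j : ℕ}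
    (hj : j < l.length) (a : V → A) :
    (lpr (l.take (j + 1)) a : MvPolynomial (V → Option A) F) = lpr (l.take j) a * X (restr l[j] a) := by
  rw [lpr, List.take_succ_eq_append_getElem hj, List.map_append, List.prod_append]
  simp only [List.map_cons, List.map_nil, List.prod_cons, List.prod_nil, mul_one]
  rfl

theorem t_UPG : S_UPG := by
  intro F _ V A _ _ _ _ H
  have hN : Fintype.card (V → A) = Fintype.card A ^ Fintype.card V := by
    rw [Fintype.card_fun]
  obtain ⟨N, hNd⟩ : ∃ N, N = Fintype.card A ^ Fintype.card V := ⟨_, rfl⟩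
  obtain ⟨D, hD⟩ : ∃ D, D = H.card := ⟨_, rfl⟩
  let E : Fin N ≃ (V → A) := (Fintype.equivFinOfCardEq (hN.trans hNd.symm)).symm
  let p : ℕ → MvPolynomial (V → Option A) F := fun t =>
    if h : t / D < N then lpr (H.toList.take (t % D + 1)) (E ⟨t / D, h⟩) else 0
  have hlen : H.toList.length = D := by rw [Finset.length_toList, hD]
  have hp : ∀ (i : Fin N) (j : ℕ), j < D → p (i * D + j) = lpr (H.toList.take (j + 1)) (E i) := by
    intro i j hj
    have hD0 : 0 < D := by omega
    have h1 : ((i : ℕ) * D + j) / D = i := by
      rw [mul_comm, Nat.mul_add_div hD0, Nat.div_eq_of_lt hj, add_zero]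
    have h2 : ((i : ℕ) * D + j) % D = j := Nat.mul_add_mod_of_lt hj
    have h3 : ((i : ℕ) * D + j) / D < N := by rw [h1]; exact i.2
    show (if h : ((i : ℕ) * D + j) / D < N then _ else _) = _
    rw [dif_pos h3, h2]
    congr 2
    exact Fin.ext h1
  refine ⟨N * D, p, ?_, ?_, ?_⟩
  · rw [hNd, hD, mul_comm]
  · intro c t ht
    have hD0 : 0 < D := by
      rcases Nat.eq_zero_or_pos D with h | h
      · rw [h, mul_zero] at ht
        omega
      · exact h
    have h1 : t / D < N := Nat.div_lt_of_lt_mul (by rw [mul_comm]; exact ht)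
    have h2 : t % D < D := Nat.mod_lt _ hD0
    have ht' : t = (⟨t / D, h1⟩ : Fin N) * D + t % D := by
      show t = t / D * D + t % D
      rw [mul_comm]
      exact (Nat.div_add_mod t D).symm
    have h3 : p t = lpr (H.toList.take (t % D + 1)) (E ⟨t / D, h1⟩) := by
      conv_lhs => rw [ht']
      exact hp _ _ h2
    constructor
    · rw [h3]
      exact scale_lpr c _ _
    · left
      rw [EC.Quadratic, h3, lpr_take (by rw [hlen]; exact h2)]
      refine Submodule.mul_mem_mul ?_ (Submodule.subset_span (Or.inl (Or.inr ⟨_, rfl⟩)))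
      rcases Nat.eq_zero_or_pos (t % D) with h4 | h4
      · rw [h4, List.take_zero]
        exact Submodule.subset_span (Or.inl (Or.inl rfl))
      · have h5 : p (t - 1) = lpr (H.toList.take (t % D)) (E ⟨t / D, h1⟩) := by
          have h6 : t - 1 = (⟨t / D, h1⟩ : Fin N) * D + (t % D - 1) := by
            have := ht'
            omega
          rw [h6, hp _ _ (by omega), Nat.sub_add_cancel h4]
        rw [← h5]
        refine Submodule.subset_span (Or.inr ⟨t - 1, ?_, rfl⟩)
        show t - 1 < t
        have : t % D ≤ t := Nat.mod_le _ _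
        omega
  · rw [Z]
    refine Submodule.sum_mem _ fun a _ => ?_
    have h1 : (∏ K ∈ H, X (restr K a) : MvPolynomial (V → Option A) F) = lpr H.toList a := by
      rw [lpr, Finset.prod_map_toList]
    rw [h1]
    rcases Nat.eq_zero_or_pos D with h | h
    · have h2 : H.toList = [] := List.length_eq_zero_iff.1 (by rw [hlen, h])
      rw [h2]
      exact Submodule.subset_span (Or.inl (Or.inl rfl))
    · have h2 := hp (E.symm a) (D - 1) (by omega)
      rw [Nat.sub_add_cancel h, List.take_of_length_le (le_of_eq hlen), E.apply_symm_apply] at h2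
      rw [← h2]
      refine Submodule.subset_span (Or.inr ⟨_, ?_, rfl⟩)
      show (E.symm a : ℕ) * D + (D - 1) < N * D
      have h3 : ((E.symm a : ℕ) + 1) * D ≤ N * D := Nat.mul_le_mul_right _ (E.symm a).2
      have h4 : ((E.symm a : ℕ) + 1) * D = (E.symm a : ℕ) * D + D := by ring
      omega

end Pool.Agent.Helper1x.EG
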